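import Pool.Agent.W705.JR.Vas

set_option autoImplicit false

namespace Pool.Agent.W705.JR

open Finset LaurentPolynomial Pool.Agent.H891R2.Jones Pool.Agent.W639.RB Pool.Agent.H832R3.VJ

theorem cardle {α β : Type*} [Fintype α] [Fintype β] (p : α → Prop) (q : β → Prop) (dp : DecidablePred p) 
    (dq : DecidablePred q) (f : α → β) (hf : Function.Injective f) (h : ∀ x, p x → q (f x)) : 
    ((@Finset.filter α p dp univ).card : ℝ) ≤ ((@Finset.filter β q dq univ).card : ℝ) := by
  exact Nat.cast_le.2 (Finset.card_le_card_of_injOn f (fun x hx => 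
    Finset.mem_coe.2 (Finset.mem_filter.2 ⟨Finset.mem_univ _, h x (Finset.mem_filter.1 (Finset.mem_coe.1 hx)).2⟩)) 
      hf.injOn)

open Classical in
theorem sum_update {α : Type*} [Fintype α] {M : ℕ} (i : Fin M) (F : (Fin M → α) → ℝ) : 
    ∑ W : Fin M → α, ∑ x : α, F (Function.update W i x) = (Fintype.card α : ℝ) * ∑ W : Fin M → α, F W := by
  have h1 : ∑ W : Fin M → α, ∑ x : α, F (Function.update W i x) = 
      ∑ z : (Fin M → α) × α, F (Function.update z.1 i z.2) := (Fintype.sum_prod_type (fun z : (Fin M → α) × α => F (Function.update z.1 i z.2))).symm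
  have h2 : ∑ z : (Fin M → α) × α, F z.1 = (Fintype.card α : ℝ) * ∑ W : Fin M → α, F W := by
    rw [Fintype.sum_prod_type, Finset.mul_sum]
    refine Finset.sum_congr rfl fun W _ => ?_
    show ∑ _y : α, F W = _
    rw [Finset.sum_const, Finset.card_univ, nsmul_eq_mul]
  rw [h1, ← h2]
  have hinv : Function.Involutive (fun z : (Fin M → α) × α => (Function.update z.1 i z.2, z.1 i)) := by
    rintro ⟨W, x⟩
    simp
  exact Equiv.sum_comp hinv.toPerm (fun z : (Fin M → α) × α => F z.1)

open Classical in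
theorem tuples_one {α : Type*} [Fintype α] {M : ℕ} (i j : Fin M) (hij : i ≠ j) (R : α → α → Prop) (q : ℝ) 
    (h : ∀ y, ((univ.filter (fun x => R x y)).card : ℝ) ≤ q * Fintype.card α) : 
    ((univ.filter (fun W : Fin M → α => R (W i) (W j))).card : ℝ) ≤ q * (Fintype.card α : ℝ) ^ M := by
  rcases isEmpty_or_nonempty α with hα | hα
  · have : IsEmpty (Fin M → α) := ⟨fun W => hα.false (W i)⟩
    have hM : M ≠ 0 := by
      have := i.2
      omega
    rw [Finset.univ_eq_empty, Finset.filter_empty, Finset.card_empty, Fintype.card_eq_zero]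
    simp [hM]
  · have hpos : (0:ℝ) < Fintype.card α := by exact_mod_cast Fintype.card_pos
    have h1 := sum_update i (fun W : Fin M → α => if R (W i) (W j) then (1:ℝ) else 0)
    have h2 : ∑ W : Fin M → α, (if R (W i) (W j) then (1:ℝ) else 0) = 
        ((univ.filter (fun W : Fin M → α => R (W i) (W j))).card : ℝ) := by
      rw [Finset.sum_boole]
    rw [h2] at h1
    have h3 : ∑ W : Fin M → α, ∑ x : α, (if R ((Function.update W i x) i) ((Function.update W i x) j) then (1:ℝ) else 0) ≤ 
        ∑ W : Fin M → α, q * Fintype.card α := by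
      refine Finset.sum_le_sum fun W _ => ?_
      refine le_trans (le_of_eq ?_) (h (W j))
      rw [← Finset.sum_boole]
      refine Finset.sum_congr rfl fun x _ => ?_
      rw [Function.update_self, Function.update_of_ne hij.symm]
    rw [h1, Finset.sum_const, Finset.card_univ, Fintype.card_fun, Fintype.card_fin, nsmul_eq_mul] at h3
    push_cast at h3
    have h4 : (Fintype.card α : ℝ) * ((univ.filter (fun W : Fin M → α => R (W i) (W j))).card : ℝ) ≤ 
        (Fintype.card α : ℝ) * (q * (Fintype.card α : ℝ) ^ M) := by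
      refine h3.trans (le_of_eq ?_)
      ring
    exact le_of_mul_le_mul_left h4 hpos

open Classical in
/-- `M` independent choices -/
theorem tuples {α : Type*} [Fintype α] (M : ℕ) (R : Fin M → Fin M → α → α → Prop) (q : ℝ) (hq : 0 ≤ q)
    (h : ∀ i j, i ≠ j → ∀ y, ((univ.filter (fun x => R i j x y)).card : ℝ) ≤ q * Fintype.card α) : 
    ((univ.filter (fun W : Fin M → α => ∃ i j, i ≠ j ∧ R i j (W i) (W j))).card : ℝ) ≤ 
      (M:ℝ)^2 * q * (Fintype.card α : ℝ) ^ M := by
  have h1 : (univ.filter (fun W : Fin M → α => ∃ i j, i ≠ j ∧ R i j (W i) (W j))) ⊆ 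
      (univ : Finset (Fin M × Fin M)).biUnion (fun ij => 
        univ.filter (fun W : Fin M → α => ij.1 ≠ ij.2 ∧ R ij.1 ij.2 (W ij.1) (W ij.2))) := by
    intro W hW
    rw [Finset.mem_filter] at hW
    obtain ⟨_, i, j, hij, hR⟩ := hW
    rw [Finset.mem_biUnion]
    exact ⟨(i, j), Finset.mem_univ _, Finset.mem_filter.2 ⟨Finset.mem_univ _, hij, hR⟩⟩
  have h2 := (Finset.card_le_card h1).trans Finset.card_biUnion_le
  have h3 : ((univ.filter (fun W : Fin M → α => ∃ i j, i ≠ j ∧ R i j (W i) (W j))).card : ℝ) ≤ 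
      ∑ ij : Fin M × Fin M, ((univ.filter (fun W : Fin M → α => 
        ij.1 ≠ ij.2 ∧ R ij.1 ij.2 (W ij.1) (W ij.2))).card : ℝ) := by
    exact_mod_cast h2
  refine h3.trans ?_
  refine (Finset.sum_le_card_nsmul _ _ (q * (Fintype.card α : ℝ) ^ M) fun ij _ => ?_).trans (le_of_eq ?_)
  · by_cases hij : ij.1 = ij.2
    · have : (univ.filter (fun W : Fin M → α => ij.1 ≠ ij.2 ∧ R ij.1 ij.2 (W ij.1) (W ij.2))) = ∅ := by
        ext W
        simp [hij]
      rw [this, Finset.card_empty, Nat.cast_zero]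
      positivity
    · have h4 := tuples_one ij.1 ij.2 hij (R ij.1 ij.2) q (h ij.1 ij.2 hij)
      refine le_trans ?_ h4
      norm_cast
      refine Finset.card_le_card fun W hW => ?_
      rw [Finset.mem_filter] at hW ⊢
      exact ⟨hW.1, hW.2.2⟩
  · rw [nsmul_eq_mul, Finset.card_univ, Fintype.card_prod, Fintype.card_fin]
    push_cast
    ring

end Pool.Agent.W705.JR
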