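import Pool.Agent.H891R2.Jones.Diagram

/-!
# The plat closure of braids, as the outside of a box

`Outer m` (starting library `Pool.Agent.H891R2.Jones.Diagram`) is the part of an oriented link diagram
outside a box through which `m` strands run.
-/

set_option autoImplicit false

namespace Pool.Agent.W705.JR

open Pool.Agent.H891R2.Jones

/-- The outside of the box for the plat closure of a braid on `2 k` strands: no crossings; the lower
ends of the strands number `2 i` and `2 i + 1` are joined by an arc, and so are their upper ends.
`b i = true` (`t i = true`) if the arc number `i` at the bottom (at the top) runs counterclockwise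
(clockwise), that is, if the strand whose end is the left end of the arc is directed upwards there. -/
def plat (k : ℕ) (b t : Fin k → Bool) : Outer (2 * k) where
  P := Bool × Fin (2 * k)
  arcs := (List.finRange k).map (fun i => 
      if b i then ((false, ⟨2 * i + 1, by omega⟩), (false, ⟨2 * i, by omega⟩)) 
      else ((false, ⟨2 * i, by omega⟩), (false, ⟨2 * i + 1, by omega⟩))) ++ 
    (List.finRange k).map (fun i => 
      if t i then ((true, ⟨2 * i, by omega⟩), (true, ⟨2 * i + 1, by omega⟩)) 
      else ((true, ⟨2 * i + 1, by omega⟩), (true, ⟨2 * i, by omega⟩)))
  crossings := []
  lower := fun j => (false, j)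
  upper := fun j => (true, j)
  up := fun j => if (j : ℕ) % 2 = 0 then b ⟨j / 2, by omega⟩ else !(b ⟨j / 2, by omega⟩)

end Pool.Agent.W705.JR
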