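import Pool.Agent.W705.JR.Main
import Pool.Agent.W705.JR.Defs

set_option autoImplicit false

namespace Pool.Agent.W705.JR

open Finset LaurentPolynomial Pool.Agent.H891R2.Jones Pool.Agent.W639.RB

variable {m : ℕ}

theorem card_letter (m : ℕ) : Fintype.card (Letter m) = 2 * (m - 1) := by simp

open Classical in
theorem count (hm : 3 ≤ m) : ∃ C r : ℝ, 1 ≤ C ∧ 0 < r ∧ r < 1 ∧ 
    ∀ (O : Outer m) (f : ℤ[T;T⁻¹]) (n : ℕ), 
      ((univ.filter (fun w : Fin n → Letter m => (diagram O w).fPoly = f)).card : ℝ) ≤ 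
        C * r ^ n * ((2 * (m - 1) : ℕ) : ℝ) ^ n := by
  set D : ℕ := 2 * (m - 1) with hD
  have hDpos : (0:ℝ) < D := by
    have : 0 < D := by omega
    exact_mod_cast this
  obtain ⟨C, r, hC, hr0, hr1, h⟩ := main hm (fun _ : Letter m => (1:ℝ) / D) (fun _ => by positivity) (by
    rw [Finset.sum_const, Finset.card_univ, card_letter, nsmul_eq_mul, ← hD]
    field_simp)
  refine ⟨C + 1, max r (1/2), by linarith, by positivity, max_lt hr1 (by norm_num), 
    fun O f n => ?_⟩
  have h1 := h O (ev 3 le_rfl f) n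
  have h2 : ((univ.filter (fun w : Fin n → Letter m => (diagram O w).fPoly = f)).card : ℝ) * (1 / D) ^ n ≤ 
      prob (fun _ : Letter m => (1:ℝ) / D) O n (ev 3 le_rfl f) := by
    unfold prob
    rw [← nsmul_eq_mul, ← Finset.sum_const, Finset.sum_filter]
    refine Finset.sum_le_sum fun w _ => ?_
    by_cases hw : (diagram O w).fPoly = f
    · have hw' : (draw O (toL w)).close.fPoly = f := hw
      rw [if_pos hw, if_pos (by rw [hw'])]
      rw [Finset.prod_const, Finset.card_univ, Fintype.card_fin]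
    · rw [if_neg hw]
      split_ifs
      · exact Finset.prod_nonneg fun _ _ => by positivity
      · exact le_rfl
  have h3 : r ^ n ≤ (max r (1/2)) ^ n := pow_le_pow_left₀ hr0 (le_max_left _ _) n
  have h4 : C * r ^ n ≤ (C + 1) * (max r (1/2)) ^ n := by
    have h5 : 0 ≤ (max r (1/2)) ^ n := by positivity
    nlinarith [mul_le_mul_of_nonneg_left h3 hC]
  have h5 : (0:ℝ) < (D:ℝ) ^ n := by positivity
  have h6 := (h2.trans h1).trans h4
  rw [div_pow, one_pow, mul_one_div, div_le_iff₀ h5] at h6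
  exact h6

open Classical in
/-- many different polynomials -/
theorem many_values {C r : ℝ} (hr : 0 < r) (O : Outer m) (n : ℕ) (hm : 2 ≤ m)
    (h : ∀ (f : ℤ[T;T⁻¹]), ((univ.filter (fun w : Fin n → Letter m => (diagram O w).fPoly = f)).card : ℝ) ≤ 
        C * r ^ n * ((2 * (m - 1) : ℕ) : ℝ) ^ n) : 
    (1 / r) ^ n ≤ C * ((univ.image (fun w : Fin n → Letter m => (diagram O w).fPoly)).card : ℝ) := by
  set D : ℕ := 2 * (m - 1) with hD
  have hDpos : (0:ℝ) < D := by
    have : 0 < D := by omega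
    exact_mod_cast this
  have h1 : ((univ : Finset (Fin n → Letter m)).card : ℝ) = ∑ f ∈ univ.image (fun w : Fin n → Letter m => (diagram O w).fPoly), 
      ((univ.filter (fun w : Fin n → Letter m => (diagram O w).fPoly = f)).card : ℝ) := by
    rw [← Nat.cast_sum, Finset.card_eq_sum_card_image (fun w : Fin n → Letter m => (diagram O w).fPoly)]
  have h2 : ((univ : Finset (Fin n → Letter m)).card : ℝ) = (D:ℝ) ^ n := by
    rw [Finset.card_univ, Fintype.card_fun, Fintype.card_fin, card_letter, ← hD]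
    push_cast; rfl
  have h3 : (D:ℝ) ^ n ≤ ((univ.image (fun w : Fin n → Letter m => (diagram O w).fPoly)).card : ℝ) * 
      (C * r ^ n * (D:ℝ) ^ n) := by
    rw [← h2, h1, ← nsmul_eq_mul]
    refine Finset.sum_le_card_nsmul _ _ _ fun f _ => ?_
    rw [← h1, h2]
    exact h f
  have h4 : (0:ℝ) < (D:ℝ) ^ n := by positivity
  have h5 : (0:ℝ) < r ^ n := by positivity
  rw [div_pow, one_pow, div_le_iff₀ h5]
  have h6 : (1:ℝ) * (D:ℝ) ^ n ≤ (C * ((univ.image (fun w : Fin n → Letter m => (diagram O w).fPoly)).card : ℝ) * r ^ n) * 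
      (D:ℝ) ^ n := by
    rw [one_mul]; refine h3.trans (le_of_eq ?_); ring
  exact le_of_mul_le_mul_right h6 h4

open Classical in
theorem knots' (hm : 3 ≤ m) {C r : ℝ} (hC : 0 ≤ C) (hr : 0 < r)
    (h : ∀ (O : Outer m) (f : ℤ[T;T⁻¹]) (n : ℕ), 
      ((univ.filter (fun w : Fin n → Letter m => (diagram O w).fPoly = f)).card : ℝ) ≤ 
        C * r ^ n * ((2 * (m - 1) : ℕ) : ℝ) ^ n) : 
    ∃ (C' : ℝ) (l0 : ℕ), ∀ (O : Outer m) (f : ℤ[T;T⁻¹]) (n : ℕ), l0 ≤ n → n % 2 = (m - 1) % 2 → 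
      ((univ.filter (fun w : Fin n → Letter m => IsKnot w ∧ (diagram O w).fPoly = f)).card : ℝ) ≤ 
        C' * r ^ n * (univ.filter (fun w : Fin n → Letter m => IsKnot w)).card := by
  obtain ⟨l0, hl0⟩ := many_knots (m := m) (by omega)
  set D : ℕ := 2 * (m - 1) with hD
  refine ⟨C * (D:ℝ) ^ l0, l0, fun O f n hn hpar => ?_⟩
  have h1 := h O f n
  have h2 : ((univ.filter (fun w : Fin n → Letter m => IsKnot w ∧ (diagram O w).fPoly = f)).card : ℝ) ≤ 
      ((univ.filter (fun w : Fin n → Letter m => (diagram O w).fPoly = f)).card : ℝ) := by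
    norm_cast
    refine Finset.card_le_card fun w hw => ?_
    rw [Finset.mem_filter] at hw ⊢
    exact ⟨hw.1, hw.2.2⟩
  have h3 : ((D:ℝ)) ^ n ≤ (D:ℝ) ^ l0 * ((univ.filter (fun w : Fin n → Letter m => IsKnot w)).card : ℝ) := by
    exact_mod_cast hl0 n hn hpar
  have h4 : 0 ≤ C * r ^ n := by positivity
  calc _ ≤ C * r ^ n * (D:ℝ) ^ n := h2.trans h1
    _ ≤ C * r ^ n * ((D:ℝ) ^ l0 * ((univ.filter (fun w : Fin n → Letter m => IsKnot w)).card : ℝ)) := 
      mul_le_mul_of_nonneg_left h3 h4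
    _ = _ := by ring

open Classical in
theorem plats (k : ℕ) {C r : ℝ} 
    (h : ∀ (O : Outer (2 * k)) (f : ℤ[T;T⁻¹]) (n : ℕ), 
      ((univ.filter (fun w : Fin n → Letter (2 * k) => (diagram O w).fPoly = f)).card : ℝ) ≤ 
        C * r ^ n * ((2 * (2 * k - 1) : ℕ) : ℝ) ^ n) (f : ℤ[T;T⁻¹]) (n : ℕ) : 
    ((univ.filter (fun w : Fin n → Letter (2 * k) => 
        ∃ b t : Fin k → Bool, (diagram (plat k b t) w).fPoly = f)).card : ℝ) ≤ 
      (4 ^ k * C) * r ^ n * ((2 * (2 * k - 1) : ℕ) : ℝ) ^ n := by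
  have h1 : (univ.filter (fun w : Fin n → Letter (2 * k) => 
        ∃ b t : Fin k → Bool, (diagram (plat k b t) w).fPoly = f)) ⊆ 
      (univ : Finset ((Fin k → Bool) × (Fin k → Bool))).biUnion (fun bt => 
        univ.filter (fun w : Fin n → Letter (2 * k) => (diagram (plat k bt.1 bt.2) w).fPoly = f)) := by
    intro w hw
    rw [Finset.mem_filter] at hw
    obtain ⟨_, b, t, hbt⟩ := hw
    rw [Finset.mem_biUnion]
    exact ⟨(b, t), Finset.mem_univ _, Finset.mem_filter.2 ⟨Finset.mem_univ _, hbt⟩⟩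
  have h2 := (Finset.card_le_card h1).trans Finset.card_biUnion_le
  have h3 : ((univ.filter (fun w : Fin n → Letter (2 * k) => 
        ∃ b t : Fin k → Bool, (diagram (plat k b t) w).fPoly = f)).card : ℝ) ≤ 
      ∑ bt : (Fin k → Bool) × (Fin k → Bool), 
        ((univ.filter (fun w : Fin n → Letter (2 * k) => (diagram (plat k bt.1 bt.2) w).fPoly = f)).card : ℝ) := by
    exact_mod_cast h2
  refine h3.trans ?_
  refine (Finset.sum_le_card_nsmul _ _ _ (fun bt _ => h (plat k bt.1 bt.2) f n)).trans (le_of_eq ?_)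
  rw [nsmul_eq_mul, Finset.card_univ, Fintype.card_prod, Fintype.card_fun, Fintype.card_bool, 
    Fintype.card_fin, ← mul_pow]
  push_cast
  ring

theorem weights (hm : 3 ≤ m) (p : Letter m → ℝ) (hp : ∀ x, 0 < p x) (hs : ∑ x, p x = 1) : 
    ∃ C r : ℝ, 0 < r ∧ r < 1 ∧ ∀ (O : Outer m) (z : ℂ) (k : ℕ), prob p O k z ≤ C * r ^ k := by
  obtain ⟨C, r, hC, hr0, hr1, h⟩ := main hm p hp hs
  refine ⟨C, max r (1/2), by positivity, max_lt hr1 (by norm_num), fun O z k => (h O z k).trans ?_⟩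
  exact mul_le_mul_of_nonneg_left (pow_le_pow_left₀ hr0 (le_max_left _ _) k) hC

open Classical in
/-- the polynomials of much shorter words -/
theorem shorter {C r : ℝ} (hC : 0 ≤ C) (hr : 0 < r) (hr1 : r < 1)
    (h : ∀ (O : Outer m) (f : ℤ[T;T⁻¹]) (n : ℕ), 
      ((univ.filter (fun w : Fin n → Letter m => (diagram O w).fPoly = f)).card : ℝ) ≤ 
        C * r ^ n * ((2 * (m - 1) : ℕ) : ℝ) ^ n) (m' : ℕ) : 
    ∃ ε C' r' : ℝ, 0 < ε ∧ 0 < r' ∧ r' < 1 ∧ ∀ (O : Outer m) (O' : Outer m') (n : ℕ), 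
      ((univ.filter (fun w : Fin n → Letter m => ∃ j : ℕ, (j : ℝ) ≤ ε * n ∧ 
        ∃ w' : Fin j → Letter m', (diagram O' w').fPoly = (diagram O w).fPoly)).card : ℝ) ≤ 
          C' * r' ^ n * ((2 * (m - 1) : ℕ) : ℝ) ^ n := by
  set D : ℕ := 2 * (m - 1) with hD
  -- one real number dominating the number of letters
  set E : ℝ := ((2 * (m' - 1) : ℕ) : ℝ) + 2 with hE
  have hE1 : 2 ≤ E := by
    have : (0:ℝ) ≤ ((2 * (m' - 1) : ℕ) : ℝ) := Nat.cast_nonneg _
    linarith
  have hE0 : 0 < E := by linarith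
  have hlogE : 0 < Real.log E := Real.log_pos (by linarith)
  have hlogr : 0 < - Real.log r := by
    have := Real.log_neg hr hr1
    linarith
  set ε : ℝ := (- Real.log r) / (2 * Real.log E) with hε
  have hε0 : 0 < ε := by positivity
  -- the number of words of length at most ε n is at most E ^ (ε n) * 2
  refine ⟨ε, 2 * C, √r, hε0, Real.sqrt_pos.2 hr, by
    rw [Real.sqrt_lt' one_pos]; simpa using hr1, fun O O' n => ?_⟩
  set J : ℕ := ⌊ε * n⌋₊ with hJ
  have h1 : (univ.filter (fun w : Fin n → Letter m => ∃ j : ℕ, (j : ℝ) ≤ ε * n ∧ 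
        ∃ w' : Fin j → Letter m', (diagram O' w').fPoly = (diagram O w).fPoly)) ⊆ 
      (Finset.range (J + 1)).biUnion (fun j => (univ : Finset (Fin j → Letter m')).biUnion (fun w' => 
        univ.filter (fun w : Fin n → Letter m => (diagram O w).fPoly = (diagram O' w').fPoly))) := by
    intro w hw
    rw [Finset.mem_filter] at hw
    obtain ⟨_, j, hj, w', hw'⟩ := hw
    rw [Finset.mem_biUnion]
    refine ⟨j, Finset.mem_range.2 (Nat.lt_succ_of_le (Nat.le_floor hj)), ?_⟩
    rw [Finset.mem_biUnion]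
    exact ⟨w', Finset.mem_univ _, Finset.mem_filter.2 ⟨Finset.mem_univ _, hw'.symm⟩⟩
  have h2 : ((univ.filter (fun w : Fin n → Letter m => ∃ j : ℕ, (j : ℝ) ≤ ε * n ∧ 
        ∃ w' : Fin j → Letter m', (diagram O' w').fPoly = (diagram O w).fPoly)).card : ℝ) ≤ 
      ∑ j ∈ Finset.range (J + 1), ∑ w' : Fin j → Letter m', 
        ((univ.filter (fun w : Fin n → Letter m => (diagram O w).fPoly = (diagram O' w').fPoly)).card : ℝ) := by
    have h3 := (Finset.card_le_card h1).trans Finset.card_biUnion_le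
    have h4 : ∑ j ∈ Finset.range (J + 1), ((univ : Finset (Fin j → Letter m')).biUnion (fun w' => 
        univ.filter (fun w : Fin n → Letter m => (diagram O w).fPoly = (diagram O' w').fPoly))).card ≤ 
        ∑ j ∈ Finset.range (J + 1), ∑ w' : Fin j → Letter m', 
          (univ.filter (fun w : Fin n → Letter m => (diagram O w).fPoly = (diagram O' w').fPoly)).card := 
      Finset.sum_le_sum fun j _ => Finset.card_biUnion_le
    exact_mod_cast h3.trans h4
  set B : ℝ := C * r ^ n * (D:ℝ) ^ n with hB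
  have hB0 : 0 ≤ B := by positivity
  have h3 : ∑ j ∈ Finset.range (J + 1), ∑ w' : Fin j → Letter m', 
        ((univ.filter (fun w : Fin n → Letter m => (diagram O w).fPoly = (diagram O' w').fPoly)).card : ℝ) ≤ 
      ∑ j ∈ Finset.range (J + 1), E ^ j * B := by
    refine Finset.sum_le_sum fun j _ => ?_
    refine (Finset.sum_le_card_nsmul _ _ B (fun w' _ => h O _ n)).trans ?_
    rw [nsmul_eq_mul, Finset.card_univ, Fintype.card_fun, Fintype.card_fin, card_letter]
    push_cast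
    refine mul_le_mul_of_nonneg_right (pow_le_pow_left₀ (by positivity) ?_ j) hB0
    rw [hE]; push_cast; linarith
  have h4 : ∀ J : ℕ, ∑ j ∈ Finset.range (J + 1), E ^ j ≤ 2 * E ^ J := by
    intro J
    induction J with
    | zero => simp
    | succ J ih =>
      rw [Finset.sum_range_succ]
      have : 2 * E ^ J ≤ E ^ (J + 1) := by
        rw [pow_succ]
        have : 0 < E ^ J := by positivity
        nlinarith
      linarith
  have h5 : E ^ J ≤ (1 / √r) ^ n := by
    have e1 : E ^ J ≤ E ^ (ε * n) := by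
      rw [← Real.rpow_natCast]
      exact Real.rpow_le_rpow_of_exponent_le (by linarith) (Nat.floor_le (by positivity))
    have e2 : E ^ (ε * n) = (1 / √r) ^ n := by
      rw [Real.rpow_def_of_pos hE0, Real.sqrt_eq_rpow, ← Real.rpow_natCast (1 / r ^ (1/2 : ℝ)) n, 
        one_div, ← Real.rpow_neg hr.le, ← Real.rpow_mul hr.le, Real.rpow_def_of_pos hr]
      congr 1
      rw [hε]
      field_simp
    rw [← e2]; exact e1
  have h6 : ∑ j ∈ Finset.range (J + 1), E ^ j * B ≤ 2 * (1 / √r) ^ n * B := by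
    rw [← Finset.sum_mul]
    refine mul_le_mul_of_nonneg_right ?_ hB0
    exact (h4 J).trans (by linarith)
  refine h2.trans (h3.trans (h6.trans (le_of_eq ?_)))
  rw [hB]
  have h7 : r ^ n = √r ^ n * √r ^ n := by
    rw [← mul_pow, Real.mul_self_sqrt hr.le]
  have h8 : (1 / √r) ^ n * √r ^ n = 1 := by
    rw [← mul_pow, one_div, inv_mul_cancel₀ (Real.sqrt_pos.2 hr).ne', one_pow]
  rw [h7]
  linear_combination (2 * C * √r ^ n * (D:ℝ) ^ n) * h8

end Pool.Agent.W705.JR
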