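import Pool.Agent.W705.JR.Gap

set_option autoImplicit false

namespace Pool.Agent.W705.JR

open Finset Matrix Pool.Agent.H891R2.Jones Pool.Agent.W639.RB

/-- equivariant choice of a vector -/
theorem equi {X : Type*} (T : GL (Fin 2) ℂ →* Equiv.Perm X) (S : Set X)
    (hS : ∀ g x, x ∈ S → T g x ∈ S)
    (h : ∀ x ∈ S, ∃ q : Fin 2 → ℂ, q ≠ 0 ∧ ∀ g : GL (Fin 2) ℂ, T g x = x → 
      ∃ c : ℂ, (g : Matrix (Fin 2) (Fin 2) ℂ) *ᵥ q = c • q) :
    ∃ Q : X → (Fin 2 → ℂ), ∀ x ∈ S, Q x ≠ 0 ∧ ∀ g : GL (Fin 2) ℂ, ∃ c : ℂ, c ≠ 0 ∧ 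
      Q (T g x) = c • ((g : Matrix (Fin 2) (Fin 2) ℂ) *ᵥ Q x) := by
  classical
  let r : Setoid X := 
    { r := fun x y => ∃ g, T g x = y
      iseqv := ⟨fun x => ⟨1, by simp⟩, fun {x y} ⟨g, hg⟩ => ⟨g⁻¹, by rw [← hg, ← Equiv.Perm.mul_apply, ← map_mul]; simp⟩,
        fun {x y z} ⟨g, hg⟩ ⟨g', hg'⟩ => ⟨g' * g, by rw [map_mul, Equiv.Perm.mul_apply, hg, hg']⟩⟩ }
  let rep : X → X := fun x => (Quotient.mk r x).out
  have hrep : ∀ x, ∃ g, T g (rep x) = x := fun x => Quotient.mk_out (s := r) x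
  choose γ hγ using hrep
  choose! q hq0 hq using h
  have hrepS : ∀ x ∈ S, rep x ∈ S := by
    intro x hx
    have : rep x = T (γ x)⁻¹ x := by
      have e1 : (T (γ x)⁻¹) (T (γ x) (rep x)) = rep x := by
        rw [← Equiv.Perm.mul_apply, ← map_mul]; simp
      rw [hγ x] at e1
      exact e1.symm
    rw [this]; exact hS _ _ hx
  have hne : ∀ (g : GL (Fin 2) ℂ) (v : Fin 2 → ℂ), v ≠ 0 → (g : Matrix (Fin 2) (Fin 2) ℂ) *ᵥ v ≠ 0 := by
    intro g v hv h0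
    apply hv
    have h1 : ((g⁻¹ : GL (Fin 2) ℂ) : Matrix (Fin 2) (Fin 2) ℂ) *ᵥ ((g : Matrix (Fin 2) (Fin 2) ℂ) *ᵥ v) = v := by
      rw [Matrix.mulVec_mulVec]
      have h2 : ((g⁻¹ : GL (Fin 2) ℂ) : Matrix (Fin 2) (Fin 2) ℂ) * (g : Matrix (Fin 2) (Fin 2) ℂ) = 1 := by
        have h3 : ((g⁻¹ * g : GL (Fin 2) ℂ) : Matrix (Fin 2) (Fin 2) ℂ) = 1 := by rw [inv_mul_cancel]; rfl
        exact h3
      rw [h2, Matrix.one_mulVec]
    rw [← h1, h0, Matrix.mulVec_zero]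
  refine ⟨fun x => (γ x : Matrix (Fin 2) (Fin 2) ℂ) *ᵥ q (rep x), fun x hx => 
    ⟨hne _ _ (hq0 _ (hrepS x hx)), fun g => ?_⟩⟩
  have hr : rep (T g x) = rep x := by
    have : (Quotient.mk r (T g x)) = Quotient.mk r x := Quotient.sound ⟨g⁻¹, by
      rw [← Equiv.Perm.mul_apply, ← map_mul]; simp⟩
    show (Quotient.mk r (T g x)).out = (Quotient.mk r x).out
    rw [this]
  set k : GL (Fin 2) ℂ := (g * γ x)⁻¹ * γ (T g x) with hk
  have hfix : T k (rep x) = rep x := by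
    rw [hk, map_mul, Equiv.Perm.mul_apply]
    have e1 : T (γ (T g x)) (rep x) = T g x := by rw [← hr]; exact hγ _
    rw [e1, map_inv, Equiv.Perm.inv_eq_iff_eq, map_mul, Equiv.Perm.mul_apply, hγ]
  obtain ⟨c, hc⟩ := hq _ (hrepS x hx) k hfix
  have hc0 : c ≠ 0 := by
    rintro rfl
    rw [zero_smul] at hc
    exact hne _ _ (hq0 _ (hrepS x hx)) hc
  refine ⟨c, hc0, ?_⟩
  dsimp only
  rw [hr]
  have e2 : (γ (T g x) : Matrix (Fin 2) (Fin 2) ℂ) = 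
      (g : Matrix (Fin 2) (Fin 2) ℂ) * (γ x : Matrix (Fin 2) (Fin 2) ℂ) * (k : Matrix (Fin 2) (Fin 2) ℂ) := by
    have e3 : γ (T g x) = g * γ x * k := by rw [hk]; group
    conv_lhs => rw [e3]
    rfl
  rw [e2, ← Matrix.mulVec_mulVec, ← Matrix.mulVec_mulVec, hc, Matrix.mulVec_smul, Matrix.mulVec_smul]

variable {m : ℕ}

theorem Stab_IO (i : ℕ) (h : i + 2 < m) (W : Submodule ℂ (VV m)) (hW : Stab {i, i+1} W) 
    (Y : Matrix (Fin 2) (Fin 2) ℂ) (v : VV m) (hv : v ∈ W) : IO m i Y v ∈ W := by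
  rw [IO_formula]
  have h1 : ∀ w ∈ W, EE2 i w ∈ W := hW i (by simp) (by omega)
  have h2 : ∀ w ∈ W, EE2 (i+1) w ∈ W := hW (i+1) (by simp) (by omega)
  refine W.smul_mem _ (W.add_mem (W.add_mem (W.add_mem ?_ ?_) ?_) ?_)
  · exact W.smul_mem _ (h1 _ hv)
  · exact W.smul_mem _ (h1 _ (h2 _ hv))
  · exact W.smul_mem _ (h2 _ hv)
  · exact W.smul_mem _ (h2 _ (h1 _ hv))

theorem Tg_fix (i : ℕ) (h : i + 2 < m) (W : Submodule ℂ (VV m)) (hW : Stab {i, i+1} W) 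
    (g : GL (Fin 2) ℂ) : act (Tg i h g) W = W := by
  have h1 : ∀ g : GL (Fin 2) ℂ, ∀ v ∈ W, Tg i h g v ∈ W := by
    intro g v hv
    rw [Tg_apply, TH_eq]
    exact W.add_mem hv (Stab_IO i h W hW _ v hv)
  apply Submodule.ext
  intro v
  show v ∈ W.map (Tg i h g : VV m →ₗ[ℂ] VV m) ↔ v ∈ W
  rw [Submodule.mem_map]
  constructor
  · rintro ⟨w, hw, rfl⟩; exact h1 g w hw
  · intro hv
    refine ⟨Tg i h g⁻¹ v, h1 _ v hv, ?_⟩
    show Tg i h g (Tg i h g⁻¹ v) = v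
    have : Tg i h g (Tg i h g⁻¹ v) = (Tg i h g * Tg i h g⁻¹) v := rfl
    rw [this, ← map_mul, mul_inv_cancel, map_one]; rfl

/-- the algebra of the matrices preserving `W` -/
def alg (i : ℕ) (W : Submodule ℂ (VV m)) : Submodule ℂ (Matrix (Fin 2) (Fin 2) ℂ) where
  carrier := {Y | ∀ v ∈ W, IO m i Y v ∈ W}
  add_mem' hY hZ v hv := by
    rw [IO_add]; exact W.add_mem (hY v hv) (hZ v hv)
  zero_mem' v hv := by
    have : IO m i 0 v = 0 := by
      have := IO_smul i (0:ℂ) 0 v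
      rwa [zero_smul, zero_smul] at this
    rw [this]; exact W.zero_mem
  smul_mem' c Y hY v hv := by
    rw [IO_smul]; exact W.smul_mem _ (hY v hv)

theorem exists_q (i : ℕ) (h : i + 2 < m) (W : Submodule ℂ (VV m)) (hW : ¬ Stab {i, i+1} W) : 
    ∃ q : Fin 2 → ℂ, q ≠ 0 ∧ ∀ g : GL (Fin 2) ℂ, act (Tg i h g) W = W → 
      ∃ c : ℂ, (g : Matrix (Fin 2) (Fin 2) ℂ) *ᵥ q = c • q := by
  rcases alg_or_eigen (alg i W) (fun X hX Y hY v hv => by
    rw [IO_mul i h]; exact hX _ (hY v hv)) with h1 | ⟨q, hq0, hq⟩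
  · exfalso
    apply hW
    have h2 : ∀ (Y : Matrix (Fin 2) (Fin 2) ℂ), ∀ v ∈ W, IO m i Y v ∈ W := by
      intro Y
      have : Y ∈ alg i W := by rw [h1]; trivial
      exact this
    intro j hj hjm v hv
    rcases hj with hj | hj
    · subst hj
      have := h2 !![3, 1; 0, 0] v hv
      rw [IO_formula] at this
      simp only [Matrix.of_apply, Matrix.cons_val', Matrix.cons_val_zero, Matrix.cons_val_one, 
        Matrix.cons_val_fin_one] at this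
      have e1 : (1/8 : ℂ) • (((3:ℂ) * 3 - 1) • EE2 j v + ((3:ℂ) * 1 - 3) • (EE2 j (EE2 (j+1) v)) + 
        ((3:ℂ) * 0 - 0) • EE2 (j+1) v + ((3:ℂ) * 0 - 0) • (EE2 (j+1) (EE2 j v))) = EE2 j v := by
        match_scalars <;> ring
      rwa [e1] at this
    · have hj' : j = i + 1 := hj
      subst hj'
      have := h2 !![0, 0; 1, 3] v hv
      rw [IO_formula] at this
      simp only [Matrix.of_apply, Matrix.cons_val', Matrix.cons_val_zero, Matrix.cons_val_one, 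
        Matrix.cons_val_fin_one] at this
      have e1 : (1/8 : ℂ) • (((3:ℂ) * 0 - 0) • EE2 i v + ((3:ℂ) * 0 - 0) • (EE2 i (EE2 (i+1) v)) + 
        ((3:ℂ) * 3 - 1) • EE2 (i+1) v + ((3:ℂ) * 1 - 3) • (EE2 (i+1) (EE2 i v))) = EE2 (i+1) v := by
        match_scalars <;> ring
      rwa [e1] at this
  · refine ⟨q, hq0, fun g hg => ?_⟩
    have h1 : (g : Matrix (Fin 2) (Fin 2) ℂ) - 1 ∈ alg i W := by
      intro v hv
      have h2 : Tg i h g v ∈ W := by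
        have h3 : Tg i h g v ∈ act (Tg i h g) W := Submodule.mem_map_of_mem hv
        rwa [hg] at h3
      rw [Tg_apply, TH_eq] at h2
      have := W.sub_mem h2 hv
      rwa [add_sub_cancel_left] at this
    obtain ⟨c, hc⟩ := hq _ h1
    refine ⟨c + 1, ?_⟩
    rw [Matrix.sub_mulVec, Matrix.one_mulVec] at hc
    rw [add_smul, one_smul, ← hc]; abel

/-- the good subspaces for the place `i` -/
def good (i : ℕ) : Set (Submodule ℂ (VV m)) := {W | ¬ Stab {i, i+1} W}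

theorem gap_i (i : ℕ) (h : i + 2 < m) : ∃ c : ℝ, 0 < c ∧ ∀ f : L2 (Submodule ℂ (VV m)), 
    (∀ W, W ∉ good i → f W = 0) → 
      c * ‖f‖ ≤ ‖f - sh (act (uu i h)) f‖ ∨ c * ‖f‖ ≤ ‖f - sh (act (vv i h)) f‖ := by
  obtain ⟨M₀, A, B, hA, hB, hcov, hM⟩ := cones Mu Mv Mu_det Mv_det Mu_trace Mv_trace no_common
  obtain ⟨Q, hQ⟩ := equi ((actH (VV m)).comp (Tg i h)) (good i) (fun g W hW => by
    intro h1
    apply hW
    have h2 := Tg_fix i h _ h1 g⁻¹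
    have h3 : act (Tg i h g⁻¹) (act (Tg i h g) W) = W := by
      have : act (Tg i h g⁻¹) (act (Tg i h g) W) = (actH (VV m) (Tg i h g⁻¹) * actH (VV m) (Tg i h g)) W := rfl
      rw [this, ← map_mul, ← map_mul, inv_mul_cancel, map_one, map_one]; rfl
    have h4 : act (Tg i h g) W = W := by
      rw [← h3]
      conv_lhs => rw [h3]
      exact h2.symm
    have h5 : Stab {i, i+1} (act (Tg i h g) W) := h1
    rwa [h4] at h5) (fun W hW => exists_q i h W hW)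
  -- powers
  have key : ∀ (u : VV m ≃ₗ[ℂ] VV m) (g : GL (Fin 2) ℂ) (M : Matrix (Fin 2) (Fin 2) ℂ), 
      (g : Matrix (Fin 2) (Fin 2) ℂ) = M → u ^ 3 = Tg i h (g ^ 3) → 
      ∀ (S : Set (Fin 2 → ℂ)), (∀ x ∈ S, ∀ c : ℂ, c ≠ 0 → c • x ∈ S) → 
      (∀ n ≥ M₀, ∀ x ∈ S, (M ^ n) *ᵥ x ∉ S) → 
      ∀ W, W ∈ good i → Q W ∈ S → ∀ n ≥ M₀, Q (((act u) ^ (3 * n)) W) ∉ S := by
    intro u g M hgM hu S hS1 hS2 W hW hWS n hn hcon
    have e1 : (act u) ^ (3 * n) = ((actH (VV m)).comp (Tg i h)) (g ^ (3 * n)) := by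
      rw [MonoidHom.comp_apply, pow_mul, pow_mul, map_pow (Tg i h), map_pow (actH (VV m)), ← hu, 
        map_pow (actH (VV m)), actH_apply]
    obtain ⟨c, hc0, hc⟩ := (hQ W hW).2 (g ^ (3 * n))
    rw [e1, hc] at hcon
    have h1 := hS1 _ hcon c⁻¹ (inv_ne_zero hc0)
    rw [smul_smul, inv_mul_cancel₀ hc0, one_smul] at h1
    have e2 : ((g ^ (3 * n) : GL (Fin 2) ℂ) : Matrix (Fin 2) (Fin 2) ℂ) = M ^ (3 * n) := by
      rw [← hgM]; rfl
    rw [e2] at h1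
    exact hS2 (3 * n) (by omega) _ hWS h1
  set M : ℕ := M₀ + 1 with hMdef
  have hMpos : (0:ℝ) < M := by positivity
  refine ⟨1 / (100 * M), by positivity, fun f hf => ?_⟩
  by_contra hcon
  push Not at hcon
  obtain ⟨hu, hv⟩ := hcon
  have hpp := pingpong (act (uu i h) ^ (3 * M)) (act (vv i h) ^ (3 * M)) 
    {W | W ∈ good i ∧ Q W ∈ A} {W | W ∈ good i ∧ Q W ∈ B} 
    (by
      rw [Set.disjoint_left]
      rintro W ⟨_, hWB⟩ ⟨W', ⟨hW'g, hW'B⟩, rfl⟩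
      exact key (uu i h) gMu Mu rfl (u_cube i h) B hB (fun n hn => (hM n hn).1) W' hW'g hW'B M 
        (by omega) hWB)
    (by
      rw [Set.disjoint_left]
      rintro W ⟨_, hWB⟩ ⟨_, ⟨W', ⟨hW'g, hW'B⟩, rfl⟩, rfl⟩
      refine key (uu i h) gMu Mu rfl (u_cube i h) B hB (fun n hn => (hM n hn).1) W' hW'g hW'B (M + M) 
        (by omega) ?_
      rw [mul_add, pow_add]; exact hWB)
    (by
      rw [Set.disjoint_left]
      rintro W ⟨_, hWB⟩ ⟨W', ⟨hW'g, hW'B⟩, rfl⟩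
      exact key (vv i h) gMv Mv rfl (v_cube i h) A hA (fun n hn => (hM n hn).2) W' hW'g hW'B M 
        (by omega) hWB)
    (by
      rw [Set.disjoint_left]
      rintro W ⟨_, hWB⟩ ⟨_, ⟨W', ⟨hW'g, hW'B⟩, rfl⟩, rfl⟩
      refine key (vv i h) gMv Mv rfl (v_cube i h) A hA (fun n hn => (hM n hn).2) W' hW'g hW'B (M + M) 
        (by omega) ?_
      rw [mul_add, pow_add]; exact hWB)
    f (fun W hW => by
      have hg : W ∈ good i := by
        by_contra hg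
        exact hW (hf W hg)
      rcases hcov (Q W) (hQ W hg).1 with h1 | h1
      · exact Or.inl ⟨hg, h1⟩
      · exact Or.inr ⟨hg, h1⟩) (3 / 100 * ‖f‖)
    (by
      refine le_trans (sh_pow_sub _ f (3 * M)) ?_
      push_cast
      have : (3 * (M:ℝ)) * ‖f - sh (act (uu i h)) f‖ ≤ (3 * (M:ℝ)) * (1 / (100 * M) * ‖f‖) := 
        mul_le_mul_of_nonneg_left hu.le (by positivity)
      refine le_trans this (le_of_eq ?_)
      field_simp)
    (by
      refine le_trans (sh_pow_sub _ f (3 * M)) ?_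
      push_cast
      have : (3 * (M:ℝ)) * ‖f - sh (act (vv i h)) f‖ ≤ (3 * (M:ℝ)) * (1 / (100 * M) * ‖f‖) := 
        mul_le_mul_of_nonneg_left hv.le (by positivity)
      refine le_trans this (le_of_eq ?_)
      field_simp)
  have h0 : ‖f‖ = 0 := by
    have := norm_nonneg f
    linarith
  rw [h0, mul_zero] at hu
  exact absurd hu (not_lt.2 (norm_nonneg _))

end Pool.Agent.W705.JR
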