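import Pool.Agent.W705.JR.Rep

set_option autoImplicit false

namespace Pool.Agent.W705.JR

open Finset LaurentPolynomial Pool.Agent.H891R2.Jones Pool.Agent.W639.RB

variable {m : ℕ}

theorem Zg_add (A : ℂ) (N : ℕ) (O : Outer m) (g h : (Fin m → Fin N) → ((Fin m → Fin N) → ℂ)) :
    Zg A N O (g + h) = Zg A N O g + Zg A N O h := by
  unfold Zg
  rw [← Finset.sum_add_distrib]
  exact Finset.sum_congr rfl fun u _ => by simp only [Pi.add_apply]; ring

theorem Zg_smul (A : ℂ) (N : ℕ) (O : Outer m) (c : ℂ) (g : (Fin m → Fin N) → ((Fin m → Fin N) → ℂ)) :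
    Zg A N O (c • g) = c * Zg A N O g := by
  unfold Zg
  rw [Finset.mul_sum]
  exact Finset.sum_congr rfl fun u _ => by simp only [Pi.smul_apply, smul_eq_mul]; ring

/-- the functional belonging to an outside and a value -/
noncomputable def fn (O : Outer m) (z : ℂ) : VV m →ₗ[ℂ] ℂ where
  toFun v := Zg A3 3 O v.1 - 3 * z * qq ^ (owr O) * v.2 O.up
  map_add' v w := by
    rw [Prod.fst_add, Prod.snd_add, Zg_add, Pi.add_apply]; ring
  map_smul' c v := by
    rw [Prod.smul_fst, Prod.smul_snd, Zg_smul, Pi.smul_apply, smul_eq_mul, smul_eq_mul, 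
      RingHom.id_apply]; ring

theorem fn_apply (O : Outer m) (z : ℂ) (v : VV m) : 
    fn O z v = Zg A3 3 O v.1 - 3 * z * qq ^ (owr O) * v.2 O.up := rfl

theorem push_up (O : Outer m) (x : Letter m) : (O.push x.1 x.2).up = O.up ∘ sw x := by
  unfold Outer.push
  rw [dif_pos (idx_lt x)]
  rfl

theorem fn_push (O : Outer m) (z : ℂ) (x : Letter m) (v : VV m) : 
    fn (O.push x.1 x.2) z v = fn O z (gg x v) := by
  rw [fn_apply, fn_apply, gg_apply]
  have h1 : Zg A3 3 (O.push x.1 x.2) v.1 = Zg A3 3 O (s1 x v.1) := by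
    rcases x with ⟨b, i⟩
    cases b
    · have := Zg_push_false (A := A3) O i (idx_lt (false, i)) v.1
      rw [this]
      rfl
    · have := Zg_push_true (A := A3) O i (idx_lt (true, i)) v.1
      rw [this]
      rfl
  have h2 := (push_writhe O x.1 x.2 (idx_lt x)).1
  have h3 : (if x.1 = true then (1:ℤ) else -1) = sgn x.1 := rfl
  rw [h1, h2, push_up, h3]
  show _ = Zg A3 3 O (s1 x v.1) - 3 * z * qq ^ (owr O) * (qq ^ (sgn x.1 * cst2 x O.up) * v.2 (O.up ∘ sw x))
  rw [zpow_add₀ qq_ne]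
  unfold cst2
  ring

theorem act_ker (O : Outer m) (z : ℂ) (x : Letter m) : 
    (act (gg x))⁻¹ (LinearMap.ker (fn O z)) = LinearMap.ker (fn (O.push x.1 x.2) z) := by
  apply Submodule.ext
  intro v
  rw [mem_act_inv, LinearMap.mem_ker, LinearMap.mem_ker, fn_push]

theorem ev_fPoly {P : Type} (D : Diagram P) : 
    ev 3 le_rfl D.fPoly = (qq ^ D.writhe)⁻¹ * ev 3 le_rfl D.bracket := by
  unfold Diagram.fPoly
  rw [map_mul, map_mul, ev_T]
  congr 1
  have h1 : Ar 3 = A3 := rfl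
  rw [h1]
  have h2 : qq ^ D.writhe = (-1) ^ D.writhe * A3 ^ (3 * D.writhe) := by
    unfold qq
    rw [neg_eq_neg_one_mul, mul_zpow, zpow_mul]
    norm_cast
  rw [h2, mul_inv, ← zpow_neg A3]
  have h3 : -3 * D.writhe = -(3 * D.writhe) := by ring
  rw [h3]
  congr 1
  by_cases h : Even D.writhe
  · rw [if_pos h, Even.neg_one_zpow h]; simp
  · rw [if_neg h, Odd.neg_one_zpow (Int.not_even_iff_odd.1 h)]; simp

theorem xi_mem_iff (hm : 0 < m) (O : Outer m) (z : ℂ) : 
    xi m ∈ LinearMap.ker (fn O z) ↔ ev 3 le_rfl O.close.fPoly = z := by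
  have : Nonempty O.P := ⟨O.lower ⟨0, hm⟩⟩
  have h1 := ev_bracket 3 le_rfl O.close
  rw [Z_close] at h1
  have h2 : Zg A3 3 O (xi m).1 = ((3:ℕ):ℂ) * ev 3 le_rfl O.close.bracket := by rw [h1]; rfl
  rw [LinearMap.mem_ker, fn_apply, h2, ev_fPoly, close_writhe]
  have h3 : (xi m).2 O.up = 1 := rfl
  rw [h3]
  have h4 : qq ^ owr O ≠ 0 := zpow_ne_zero _ qq_ne
  push_cast
  constructor
  · intro h
    rw [inv_mul_eq_iff_eq_mul₀ h4]
    have : (3:ℂ) * (ev 3 le_rfl O.close.bracket - qq ^ owr O * z) = 0 := by linear_combination h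
    rcases mul_eq_zero.1 this with h5 | h5
    · norm_num at h5
    · exact sub_eq_zero.1 h5
  · intro h
    rw [inv_mul_eq_iff_eq_mul₀ h4] at h
    rw [h]; ring

theorem draw_cons {k : ℕ} (O : Outer m) (x : Letter m) (w : Fin k → Letter m) :
    draw O (toL (Fin.cons x w : Fin (k+1) → Letter m)) = draw (O.push x.1 x.2) (toL w) := by
  have : toL (Fin.cons x w : Fin (k+1) → Letter m) = (x.1, (x.2 : ℕ)) :: toL w := by
    unfold toL
    rw [List.ofFn_succ]
    simp
  rw [this]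
  rfl

open Classical in
/-- the probability of the value `z` -/
noncomputable def prob (p : Letter m → ℝ) (O : Outer m) (k : ℕ) (z : ℂ) : ℝ :=
  ∑ w : Fin k → Letter m, if ev 3 le_rfl (draw O (toL w)).close.fPoly = z then ∏ j, p (w j) else 0

theorem hit_ker (hm : 0 < m) (p : Letter m → ℝ) (z : ℂ) : ∀ (k : ℕ) (O : Outer m), 
    hit p gg (xi m) k (LinearMap.ker (fn O z)) = prob p O k z
  | 0, O => by
    classical
    unfold hit prob
    rw [Fintype.sum_unique]
    have h : (draw O (toL (default : Fin 0 → Letter m))) = O := rfl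
    rw [h]
    simp only [xi_mem_iff hm, Finset.univ_eq_empty, Finset.prod_empty]
  | (k+1), O => by
    classical
    have e1 : hit p gg (xi m) (k+1) (LinearMap.ker (fn O z)) = 
        ∑ x, p x * hit p gg (xi m) k ((act (gg x))⁻¹ (LinearMap.ker (fn O z))) := rfl
    rw [e1]
    set F : (Fin (k+1) → Letter m) → ℝ := fun w => 
        if ev 3 le_rfl (draw O (toL w)).close.fPoly = z then ∏ j, p (w j) else (0:ℝ) with hF
    have e3 := (Fin.consEquiv (fun _ : Fin (k+1) => Letter m)).sum_comp F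
    have e4 : prob p O (k+1) z = ∑ w : Fin (k+1) → Letter m, F w := rfl
    have e5 := Fintype.sum_prod_type (fun i : Letter m × (Fin k → Letter m) => 
      F ((Fin.consEquiv (fun _ : Fin (k+1) => Letter m)) i))
    rw [e4, ← e3]
    refine Eq.trans ?_ e5.symm
    refine Finset.sum_congr rfl fun x _ => ?_
    rw [act_ker, hit_ker hm p z k, prob, Finset.mul_sum]
    refine Finset.sum_congr rfl fun w _ => ?_
    have h2 : (Fin.consEquiv (fun _ : Fin (k+1) => Letter m)) (x, w) = 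
      (Fin.cons x w : Fin (k+1) → Letter m) := rfl
    rw [h2, hF]
    dsimp only
    rw [draw_cons, Fin.prod_univ_succ]
    simp only [Fin.cons_zero, Fin.cons_succ]
    split_ifs <;> ring

/-! ### nonvanishing -/

theorem A3_int : IsIntegral ℤ A3 := by
  refine ⟨Polynomial.X ^ 4 + 3 * Polynomial.X ^ 2 + 1, by monicity!, ?_⟩
  simp only [Polynomial.eval₂_add, Polynomial.eval₂_mul, Polynomial.eval₂_pow, Polynomial.eval₂_X,
    Polynomial.eval₂_one, Polynomial.eval₂_ofNat]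
  have h := A3_d
  have h0 := A3_ne
  field_simp at h
  linear_combination h

theorem A3_inv_int : IsIntegral ℤ (A3⁻¹) := by
  have h : A3⁻¹ = -(A3 ^ 3 + 3 * A3) := by
    have h := A3_d
    have h0 := A3_ne
    field_simp at h ⊢
    linear_combination h
  rw [h]
  have h3 : IsIntegral ℤ (3 : ℂ) := by
    have := isIntegral_algebraMap (R := ℤ) (A := ℂ) (x := 3)
    simpa using this
  exact ((A3_int.pow 3).add (h3.mul A3_int)).neg

theorem A3_zpow_int (n : ℤ) : IsIntegral ℤ (A3 ^ n) := by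
  rcases n with n | n
  · simpa using A3_int.pow n
  · rw [zpow_negSucc, ← inv_pow]
    exact A3_inv_int.pow _

theorem sum_weight (n : ℕ) : ∑ s : Fin n → Bool, A3 ^ (Diagram.weight s) = (A3 + A3⁻¹) ^ n := by
  classical
  have h1 : ∀ s : Fin n → Bool, A3 ^ (Diagram.weight s) = ∏ i, (if s i then A3 else A3⁻¹) := by
    intro s
    unfold Diagram.weight
    rw [zpow_sum _ A3_ne]
    refine Finset.prod_congr rfl fun i _ => ?_
    split_ifs
    · exact zpow_one _
    · exact zpow_neg_one _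
  simp only [h1]
  have h2 := Finset.prod_univ_sum (fun _ : Fin n => (Finset.univ : Finset Bool)) 
    (fun (_ : Fin n) (b : Bool) => (if b then A3 else A3⁻¹))
  rw [Fintype.piFinset_univ] at h2
  rw [← h2]
  simp

theorem Z_mod (O : Outer m) : ∃ β : ℂ, IsIntegral ℤ β ∧ 
    Zg A3 3 O (xi m).1 = (A3 + A3⁻¹) ^ O.crossings.length + 2 * β := by
  have h1 : Zg A3 3 O (xi m).1 = ∑ s : Fin O.close.crossings.length → Bool, 
      A3 ^ (Diagram.weight s) * ((3:ℕ) : ℂ) ^ O.close.loops s := by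
    rw [← sum_colourings A3_ne, Z_close]; rfl
  have h2 : ∀ l : ℕ, ∃ t : ℤ, ((3:ℕ) : ℂ) ^ l = 1 + 2 * t := by
    intro l
    have : Odd ((3:ℤ) ^ l) := Odd.pow (by decide)
    obtain ⟨t, ht⟩ := this
    refine ⟨t, ?_⟩
    have h3 := congrArg (fun z : ℤ => (z : ℂ)) ht
    push_cast at h3 ⊢
    rw [h3]; ring
  choose t ht using h2
  refine ⟨∑ s : Fin O.close.crossings.length → Bool, A3 ^ (Diagram.weight s) * (t (O.close.loops s)),
    ?_, ?_⟩
  · refine IsIntegral.sum _ fun s _ => (A3_zpow_int _).mul ?_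
    exact isIntegral_algebraMap (R := ℤ) (A := ℂ)
  · rw [h1]
    have h4 : O.close.crossings.length = O.crossings.length := rfl
    rw [← h4, ← sum_weight, Finset.mul_sum, ← Finset.sum_add_distrib]
    refine Finset.sum_congr rfl fun s _ => ?_
    rw [ht]; ring

theorem push_length (O : Outer m) (b : Bool) (i : ℕ) (h : i + 1 < m) : 
    (O.push b i).crossings.length = O.crossings.length + 1 := by
  unfold Outer.push
  rw [dif_pos h]
  simp

theorem Zg_e_ne (hm : 1 < m) (O : Outer m) : Zg A3 3 O (e m 0 (xi m).1) ≠ 0 := by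
  intro h0
  have h1 := Zg_push_true (A := A3) O 0 (by omega : 0 + 1 < m) (xi m).1
  have h2 : sg A3 (ee m 3 ((Fin m → Fin 3) → ℂ)) 0 (xi m).1 = A3 • (xi m).1 + A3⁻¹ • (e m 0 (xi m).1) := rfl
  rw [h2, Zg_add, Zg_smul, Zg_smul, h0, mul_zero, add_zero] at h1
  obtain ⟨β₀, hβ₀, e0⟩ := Z_mod O
  obtain ⟨β₁, hβ₁, e1⟩ := Z_mod (O.push true 0)
  rw [push_length O true 0 (by omega)] at e1
  rw [e1, e0] at h1
  set n := O.crossings.length with hn
  have hA := A3_ne
  have h3 : (A3 + A3⁻¹) ^ n = 2 * (A3 * (A3 * β₀ - β₁)) := by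
    have h4 : A3 * ((A3 + A3⁻¹) ^ (n+1) + 2 * β₁) = A3 * (A3 * ((A3 + A3⁻¹) ^ n + 2 * β₀)) := by rw [h1]
    have h5 : A3 * (A3 + A3⁻¹) = A3 ^ 2 + 1 := by field_simp
    linear_combination h4 - (A3 + A3⁻¹) ^ n * h5
  set γ := A3 * (A3 * β₀ - β₁) with hγ
  have hγi : IsIntegral ℤ γ := A3_int.mul ((A3_int.mul hβ₀).sub hβ₁)
  have h6 : ((-1 : ℂ)) ^ n = 4 * γ ^ 2 := by
    have h7 : (A3 + A3⁻¹) ^ 2 = -1 := by
      have := A3_d
      have h8 : A3 * A3⁻¹ = 1 := mul_inv_cancel₀ hA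
      linear_combination this + 2 * h8
    calc ((-1 : ℂ)) ^ n = ((A3 + A3⁻¹) ^ n) ^ 2 := by rw [← h7, ← pow_mul, ← pow_mul, mul_comm]
      _ = 4 * γ ^ 2 := by rw [h3]; ring
  have h9 : IsIntegral ℤ ((1/4 : ℂ)) := by
    have h10 : (1/4 : ℂ) = (-1) ^ n * γ ^ 2 := by
      have h11 : ((-1 : ℂ)) ^ n * (-1) ^ n = 1 := by rw [← mul_pow]; simp
      linear_combination (-1/4) * h11 + (-1/4 : ℂ) * (-1) ^ n * (-1) * h6
    rw [h10]
    exact ((isIntegral_one.neg).pow n).mul (hγi.pow 2)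
  have h12 : IsIntegral ℤ ((1/4 : ℚ)) := by
    have : algebraMap ℚ ℂ (1/4) = (1/4 : ℂ) := by simp
    rw [← this] at h9
    exact (isIntegral_algebraMap_iff (algebraMap ℚ ℂ).injective).1 h9
  obtain ⟨k, hk⟩ := IsIntegrallyClosed.isIntegral_iff.1 h12
  have h13 : (4 * k : ℚ) = 1 := by
    have : ((k : ℤ) : ℚ) = 1/4 := by simpa using hk
    rw [this]; norm_num
  have h14 : 4 * k = 1 := by exact_mod_cast h13
  omega

/-! ### the class of subspaces -/

/-- the subspaces contained in one of the hyperplanes -/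
def Wc (m : ℕ) : Set (Submodule ℂ (VV m)) := {W | ∃ (O : Outer m) (z : ℂ), W ≤ LinearMap.ker (fn O z)}

theorem Wc_act (W : Submodule ℂ (VV m)) (hW : W ∈ Wc m) (x : Letter m) : (act (gg x))⁻¹ W ∈ Wc m := by
  obtain ⟨O, z, h⟩ := hW
  refine ⟨O.push x.1 x.2, z, ?_⟩
  rw [← act_ker]
  exact fun v hv => h hv

theorem Wc_le (W : Submodule ℂ (VV m)) (hW : W ∈ Wc m) (W' : Submodule ℂ (VV m)) (h : W' ≤ W) : 
    W' ∈ Wc m := by
  obtain ⟨O, z, h'⟩ := hW
  exact ⟨O, z, h.trans h'⟩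

theorem hit_stab (hm : 1 < m) (p : Letter m → ℝ) : ∀ (k : ℕ) (W : Submodule ℂ (VV m)), W ∈ Wc m → 
    Stab Set.univ W → hit p gg (xi m) k W = 0
  | 0, W, hW, hS => by
    unfold hit
    rw [if_neg]
    intro hxi
    obtain ⟨O, z, h⟩ := hW
    have h1 := h (hS 0 (Set.mem_univ 0) (by omega) _ hxi)
    rw [LinearMap.mem_ker, fn_apply] at h1
    have h2 : (EE2 0 (xi m)).2 O.up = 0 := rfl
    rw [h2, mul_zero, sub_zero] at h1
    exact Zg_e_ne hm O h1
  | (k+1), W, hW, hS => by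
    have e1 : hit p gg (xi m) (k+1) W = 
        ∑ x, p x * hit p gg (xi m) k ((act (gg x))⁻¹ W) := rfl
    rw [e1]
    refine Finset.sum_eq_zero fun x _ => ?_
    rw [hit_stab hm p k _ (Wc_act W hW x) ((Stab_act_iff _ x (Set.mem_univ _) W).2 hS), mul_zero]

end Pool.Agent.W705.JR
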