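import Pool.Agent.W705.JR.Iota
import Pool.Agent.W705.JR.Link
import Pool.Agent.W705.JR.T3
import Pool.Agent.W705.JR.T4

set_option autoImplicit false

namespace Pool.Agent.W705.JR

open Finset Matrix Pool.Agent.H891R2.Jones Pool.Agent.W639.RB

variable {m : ℕ}

/-! ### the two 3-cycles -/

/-- the letter `σ_i^{±1}` -/
def lt (i : ℕ) (h : i + 1 < m) (b : Bool) : Letter m := (b, ⟨i, by omega⟩)

/-- `u = σ_{i+1} σ_i⁻¹` -/
noncomputable def uu (i : ℕ) (h : i + 2 < m) : VV m ≃ₗ[ℂ] VV m := 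
  gg (lt (i+1) h true) * gg (lt i (by omega) false)

/-- `v = σ_i⁻¹ σ_{i+1}` -/
noncomputable def vv (i : ℕ) (h : i + 2 < m) : VV m ≃ₗ[ℂ] VV m := 
  gg (lt i (by omega) false) * gg (lt (i+1) h true)

theorem swap_cube {α : Type*} [DecidableEq α] {a b c : α} (hab : a ≠ b) (hac : a ≠ c) (hbc : b ≠ c) :
    (Equiv.swap b c * Equiv.swap a b) ^ 3 = 1 := by
  set f := Equiv.swap b c * Equiv.swap a b with hf
  have fa : f a = c := by rw [hf, Equiv.Perm.mul_apply, Equiv.swap_apply_left, Equiv.swap_apply_left]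
  have fb : f b = a := by
    rw [hf, Equiv.Perm.mul_apply, Equiv.swap_apply_right, Equiv.swap_apply_of_ne_of_ne hab hac]
  have fc : f c = b := by
    rw [hf, Equiv.Perm.mul_apply, Equiv.swap_apply_of_ne_of_ne hac.symm hbc.symm, 
      Equiv.swap_apply_right]
  apply Equiv.ext
  intro j
  have h3 : (f ^ 3) j = f (f (f j)) := rfl
  rw [h3, Equiv.Perm.one_apply]
  by_cases h0 : j = a
  · rw [h0, fa, fc, fb]
  · by_cases h1 : j = b
    · rw [h1, fb, fa, fc]
    · by_cases h2 : j = c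
      · rw [h2, fc, fb, fa]
      · have fj : f j = j := by
          rw [hf, Equiv.Perm.mul_apply, Equiv.swap_apply_of_ne_of_ne h0 h1, 
            Equiv.swap_apply_of_ne_of_ne h1 h2]
        rw [fj, fj, fj]

theorem sw_cube (i : ℕ) (h : i + 2 < m) : 
    (sw (lt (m := m) (i+1) h true) * sw (lt i (by omega) false)) ^ 3 = 1 := by
  apply swap_cube <;> · intro h'; simp only [lt, Fin.mk.injEq] at h'; omega

theorem sw_cube' (i : ℕ) (h : i + 2 < m) : 
    (sw (lt (m := m) i (by omega) false) * sw (lt (i+1) h true)) ^ 3 = 1 := by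
  have h1 := sw_cube i h
  set a := sw (lt (m := m) (i+1) h true)
  set b := sw (lt (m := m) i (by omega) false)
  have : (b * a) ^ 3 = a⁻¹ * (a * b) ^ 3 * a := by
    simp only [pow_succ, pow_zero, one_mul]; group
  rw [this, h1]; group

theorem pat_sw (x : Letter m) (U : Fin m → Bool) : pat (U ∘ sw x) = pat U ∘ Equiv.swap (x.2 : ℕ) (x.2 + 1) :=
  pat_swap U x.2 (idx_lt x)

/-- the first 3-cycle on `V2` -/
theorem m2_u (i : ℕ) (h : i + 2 < m) (f : V2 m) (U : Fin m → Bool) : 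
    (m2 (lt (i+1) h true) (m2 (lt i (by omega) false) f)) U = 
      qq ^ (pat U (i+1) * pat U (i+2) - pat U i * pat U (i+2)) * 
        f (U ∘ (sw (lt (m := m) (i+1) h true) * sw (lt i (by omega) false) : Equiv.Perm (Fin m))) := by
  rw [m2_apply, m2_apply, ← mul_assoc, ← zpow_add₀ qq_ne]
  congr 2
  unfold cst2
  rw [pat_sw]
  simp only [lt, sgn, Function.comp_apply, Equiv.swap_apply_left, if_true]
  rw [Equiv.swap_apply_of_ne_of_ne (by omega) (by omega)]
  simp
  ring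

theorem m2_v (i : ℕ) (h : i + 2 < m) (f : V2 m) (U : Fin m → Bool) : 
    (m2 (lt i (by omega) false) (m2 (lt (i+1) h true) f)) U = 
      qq ^ (- (pat U i * pat U (i+1)) + pat U i * pat U (i+2)) * 
        f (U ∘ (sw (lt (m := m) i (by omega) false) * sw (lt (i+1) h true) : Equiv.Perm (Fin m))) := by
  rw [m2_apply, m2_apply, ← mul_assoc, ← zpow_add₀ qq_ne]
  congr 2
  unfold cst2
  rw [pat_sw]
  simp only [lt, sgn, Function.comp_apply, Equiv.swap_apply_right, if_true]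
  rw [Equiv.swap_apply_of_ne_of_ne (by omega) (by omega)]
  simp

theorem pat_mul (x y : Letter m) (U : Fin m → Bool) : pat (U ∘ (sw x * sw y : Equiv.Perm (Fin m))) = 
    (pat U ∘ Equiv.swap (x.2 : ℕ) (x.2 + 1)) ∘ Equiv.swap (y.2 : ℕ) (y.2 + 1) := by
  have : U ∘ (sw x * sw y : Equiv.Perm (Fin m)) = (U ∘ sw x) ∘ sw y := rfl
  rw [this, pat_sw, pat_sw]

theorem m2_u3 (i : ℕ) (h : i + 2 < m) (f : V2 m) : 
    (fun f => m2 (lt (m := m) (i+1) h true) (m2 (lt i (by omega) false) f))^[3] f = f := by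
  funext U
  simp only [Function.iterate_succ, Function.iterate_zero, Function.comp_apply, id_eq]
  rw [m2_u, m2_u, m2_u, ← mul_assoc, ← mul_assoc, ← zpow_add₀ qq_ne, ← zpow_add₀ qq_ne]
  simp only [pat_mul]
  have h1 : ((U ∘ (sw (lt (m := m) (i+1) h true) * sw (lt i (by omega) false) : Equiv.Perm (Fin m))) ∘ 
      (sw (lt (m := m) (i+1) h true) * sw (lt i (by omega) false) : Equiv.Perm (Fin m))) ∘ 
      (sw (lt (m := m) (i+1) h true) * sw (lt i (by omega) false) : Equiv.Perm (Fin m)) = U := by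
    have h2 := sw_cube (m := m) i h
    funext j
    have h3 := congrArg (fun σ : Equiv.Perm (Fin m) => σ j) h2
    simp only [pow_succ, pow_zero, one_mul, Equiv.Perm.one_apply] at h3
    show U _ = U j
    congr 1
  rw [h1]
  have h4 : ∀ z : ℤ, z = 0 → qq ^ z * f U = f U := by rintro z rfl; simp
  apply h4
  simp only [lt, Function.comp_apply]
  have a1 : (Equiv.swap i (i+1)) i = i + 1 := Equiv.swap_apply_left _ _
  have a2 : (Equiv.swap i (i+1)) (i+1) = i := Equiv.swap_apply_right _ _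
  have a3 : (Equiv.swap i (i+1)) (i+2) = i+2 := Equiv.swap_apply_of_ne_of_ne (by omega) (by omega)
  have a4 : (Equiv.swap (i+1) (i+1+1)) i = i := Equiv.swap_apply_of_ne_of_ne (by omega) (by omega)
  have a5 : (Equiv.swap (i+1) (i+1+1)) (i+1) = i+2 := Equiv.swap_apply_left _ _
  have a6 : (Equiv.swap (i+1) (i+1+1)) (i+2) = i+1 := Equiv.swap_apply_right _ _
  simp only [a1, a2, a3, a4, a5, a6]
  ring

theorem m2_v3 (i : ℕ) (h : i + 2 < m) (f : V2 m) : 
    (fun f => m2 (lt (m := m) i (by omega) false) (m2 (lt (i+1) h true) f))^[3] f = f := by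
  funext U
  simp only [Function.iterate_succ, Function.iterate_zero, Function.comp_apply, id_eq]
  rw [m2_v, m2_v, m2_v, ← mul_assoc, ← mul_assoc, ← zpow_add₀ qq_ne, ← zpow_add₀ qq_ne]
  simp only [pat_mul]
  have h1 : ((U ∘ (sw (lt (m := m) i (by omega) false) * sw (lt (i+1) h true) : Equiv.Perm (Fin m))) ∘ 
      (sw (lt (m := m) i (by omega) false) * sw (lt (i+1) h true) : Equiv.Perm (Fin m))) ∘ 
      (sw (lt (m := m) i (by omega) false) * sw (lt (i+1) h true) : Equiv.Perm (Fin m)) = U := by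
    have h2 := sw_cube' (m := m) i h
    funext j
    have h3 := congrArg (fun σ : Equiv.Perm (Fin m) => σ j) h2
    simp only [pow_succ, pow_zero, one_mul, Equiv.Perm.one_apply] at h3
    show U _ = U j
    congr 1
  rw [h1]
  have h4 : ∀ z : ℤ, z = 0 → qq ^ z * f U = f U := by rintro z rfl; simp
  apply h4
  simp only [lt, Function.comp_apply]
  have a1 : (Equiv.swap i (i+1)) i = i + 1 := Equiv.swap_apply_left _ _
  have a2 : (Equiv.swap i (i+1)) (i+1) = i := Equiv.swap_apply_right _ _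
  have a3 : (Equiv.swap i (i+1)) (i+2) = i+2 := Equiv.swap_apply_of_ne_of_ne (by omega) (by omega)
  have a4 : (Equiv.swap (i+1) (i+1+1)) i = i := Equiv.swap_apply_of_ne_of_ne (by omega) (by omega)
  have a5 : (Equiv.swap (i+1) (i+1+1)) (i+1) = i+2 := Equiv.swap_apply_left _ _
  have a6 : (Equiv.swap (i+1) (i+1+1)) (i+2) = i+1 := Equiv.swap_apply_right _ _
  simp only [a1, a2, a3, a4, a5, a6]
  ring

theorem u_fst (i : ℕ) (h : i + 2 < m) (v : VV m) : (uu i h v).1 = th (e m i) (e m (i+1)) Mu v.1 := by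
  have e1 : (uu i h v).1 = (sg A3 (e m) (i+1) * sg A3⁻¹ (e m) i) v.1 := rfl
  rw [e1, th_Mu]
  congr 1
  have hA := A3_ne
  simp only [sg, add_mul, mul_add, smul_mul_assoc, mul_smul_comm, one_mul, mul_one, smul_smul, 
    smul_add, inv_inv]
  match_scalars <;> field_simp

theorem v_fst (i : ℕ) (h : i + 2 < m) (v : VV m) : (vv i h v).1 = th (e m i) (e m (i+1)) Mv v.1 := by
  have e1 : (vv i h v).1 = (sg A3⁻¹ (e m) i * sg A3 (e m) (i+1)) v.1 := rfl
  rw [e1, th_Mv]
  congr 1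
  have hA := A3_ne
  simp only [sg, add_mul, mul_add, smul_mul_assoc, mul_smul_comm, one_mul, mul_one, smul_smul, 
    smul_add, inv_inv]
  match_scalars <;> field_simp

noncomputable def gMu : GL (Fin 2) ℂ := Matrix.GeneralLinearGroup.mkOfDetNeZero Mu (by rw [Mu_det]; exact one_ne_zero)

noncomputable def gMv : GL (Fin 2) ℂ := Matrix.GeneralLinearGroup.mkOfDetNeZero Mv (by rw [Mv_det]; exact one_ne_zero)

theorem th_pow {R : Type*} [Ring R] [Algebra ℂ R] {a b : R} (h : TL2 a b) 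
    (Y : Matrix (Fin 2) (Fin 2) ℂ) (n : ℕ) : th a b (Y ^ n) = th a b Y ^ n := by
  induction n with
  | zero => rw [pow_zero, pow_zero, th_one]
  | succ n ih => rw [pow_succ, th_mul h, ih, pow_succ]

theorem u_cube (i : ℕ) (h : i + 2 < m) : (uu i h) ^ 3 = Tg i h (gMu ^ 3) := by
  apply LinearEquiv.ext
  intro v
  rw [Tg_apply]
  have e1 : ((uu i h) ^ 3) v = uu i h (uu i h (uu i h v)) := rfl
  rw [e1]
  refine Prod.ext ?_ ?_
  · rw [u_fst, u_fst, u_fst]
    show _ = (th (e m i) (e m (i+1)) ((gMu ^ 3 : GL (Fin 2) ℂ) : Matrix (Fin 2) (Fin 2) ℂ)) v.1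
    have e2 : ((gMu ^ 3 : GL (Fin 2) ℂ) : Matrix (Fin 2) (Fin 2) ℂ) = Mu ^ 3 := rfl
    rw [e2, th_pow (e_TL2 i h)]
    rfl
  · exact m2_u3 i h v.2

theorem v_cube (i : ℕ) (h : i + 2 < m) : (vv i h) ^ 3 = Tg i h (gMv ^ 3) := by
  apply LinearEquiv.ext
  intro v
  rw [Tg_apply]
  have e1 : ((vv i h) ^ 3) v = vv i h (vv i h (vv i h v)) := rfl
  rw [e1]
  refine Prod.ext ?_ ?_
  · rw [v_fst, v_fst, v_fst]
    show _ = (th (e m i) (e m (i+1)) ((gMv ^ 3 : GL (Fin 2) ℂ) : Matrix (Fin 2) (Fin 2) ℂ)) v.1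
    have e2 : ((gMv ^ 3 : GL (Fin 2) ℂ) : Matrix (Fin 2) (Fin 2) ℂ) = Mv ^ 3 := rfl
    rw [e2, th_pow (e_TL2 i h)]
    rfl
  · exact m2_v3 i h v.2

end Pool.Agent.W705.JR
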