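import Pool.Agent.W705.JR.L2

set_option autoImplicit false

namespace Pool.Agent.W705.JR

open Finset

variable {V : Type*} [AddCommGroup V] [Module ℂ V]

/-- the action of an automorphism on the subspaces -/
noncomputable def act (g : V ≃ₗ[ℂ] V) : Equiv.Perm (Submodule ℂ V) where
  toFun W := W.map (g : V →ₗ[ℂ] V)
  invFun W := W.comap (g : V →ₗ[ℂ] V)
  left_inv W := Submodule.comap_map_eq_of_injective g.injective W
  right_inv W := Submodule.map_comap_eq_of_surjective g.surjective W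

theorem act_inv (g : V ≃ₗ[ℂ] V) (W : Submodule ℂ V) : 
    (act g)⁻¹ W = W.comap (g : V →ₗ[ℂ] V) := rfl

theorem mem_act_inv (g : V ≃ₗ[ℂ] V) (W : Submodule ℂ V) (x : V) : 
    x ∈ (act g)⁻¹ W ↔ g x ∈ W := Iff.rfl

theorem act_inv_inf (g : V ≃ₗ[ℂ] V) (W W' : Submodule ℂ V) : 
    (act g)⁻¹ (W ⊓ W') = (act g)⁻¹ W ⊓ (act g)⁻¹ W' := rfl

theorem act_inv_finrank (g : V ≃ₗ[ℂ] V) (W : Submodule ℂ V) : 
    Module.finrank ℂ ((act g)⁻¹ W : Submodule ℂ V) = Module.finrank ℂ W := by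
  have h : (act g) ((act g)⁻¹ W) = W := by simp
  have h2 : Submodule.map (g : V →ₗ[ℂ] V) ((act g)⁻¹ W) = W := h
  conv_rhs => rw [← h2]
  exact (LinearEquiv.finrank_map_eq g _).symm

variable {ι : Type*} [Fintype ι]

open Classical in
/-- the probability that a random product of `k` letters maps `ξ` into `W` -/
noncomputable def hit (p : ι → ℝ) (g : ι → V ≃ₗ[ℂ] V) (ξ : V) : ℕ → Submodule ℂ V → ℝ
  | 0, W => if ξ ∈ W then 1 else 0
  | (k+1), W => ∑ l, p l * hit p g ξ k ((act (g l))⁻¹ W)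

variable {p : ι → ℝ} {g : ι → V ≃ₗ[ℂ] V} {ξ : V}

theorem hit_nonneg (hp : ∀ l, 0 ≤ p l) : ∀ (k : ℕ) (W : Submodule ℂ V), 0 ≤ hit p g ξ k W
  | 0, W => by unfold hit; split_ifs <;> norm_num
  | (k+1), W => by
    unfold hit
    exact Finset.sum_nonneg fun l _ => mul_nonneg (hp l) (hit_nonneg hp k _)

theorem hit_le_one (hp : ∀ l, 0 ≤ p l) (hs : ∑ l, p l = 1) : 
    ∀ (k : ℕ) (W : Submodule ℂ V), hit p g ξ k W ≤ 1
  | 0, W => by unfold hit; split_ifs <;> norm_num
  | (k+1), W => by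
    unfold hit
    calc ∑ l, p l * hit p g ξ k ((act (g l))⁻¹ W) ≤ ∑ l, p l * 1 := 
          Finset.sum_le_sum fun l _ => mul_le_mul_of_nonneg_left (hit_le_one hp hs k _) (hp l)
      _ = 1 := by simp [hs]

/-- Bonferroni -/
theorem bonferroni {α : Type*} [DecidableEq α] (hp : ∀ l, 0 ≤ p l) (hs : ∑ l, p l = 1) :
    ∀ (k : ℕ) (F : Finset α) (s : α → Submodule ℂ V),
      ∑ a ∈ F, hit p g ξ k (s a) ≤ 1 + ∑ a ∈ F, ∑ b ∈ F.erase a, hit p g ξ k (s a ⊓ s b)
  | 0, F, s => by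
    classical
    unfold hit
    have h1 : ∑ a ∈ F, (if ξ ∈ s a then (1:ℝ) else 0) = ((F.filter (fun a => ξ ∈ s a)).card : ℝ) := by
      rw [Finset.sum_ite, Finset.sum_const_zero, add_zero, Finset.sum_const, nsmul_eq_mul, mul_one]
    rw [h1]
    set J := F.filter (fun a => ξ ∈ s a) with hJ
    have h2 : ∑ a ∈ J, ∑ b ∈ J.erase a, (1:ℝ) ≤ 
        ∑ a ∈ F, ∑ b ∈ F.erase a, (if ξ ∈ s a ⊓ s b then (1:ℝ) else 0) := by
      have e1 : ∑ a ∈ J, ∑ b ∈ F.erase a, (if ξ ∈ s a ⊓ s b then (1:ℝ) else 0) ≤ 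
          ∑ a ∈ F, ∑ b ∈ F.erase a, (if ξ ∈ s a ⊓ s b then (1:ℝ) else 0) := 
        Finset.sum_le_sum_of_subset_of_nonneg (Finset.filter_subset _ _) 
          (fun a _ _ => Finset.sum_nonneg fun b _ => by split_ifs <;> norm_num)
      refine le_trans ?_ e1
      refine Finset.sum_le_sum fun a ha => ?_
      have e2 : ∑ b ∈ J.erase a, (if ξ ∈ s a ⊓ s b then (1:ℝ) else 0) ≤ 
          ∑ b ∈ F.erase a, (if ξ ∈ s a ⊓ s b then (1:ℝ) else 0) := 
        Finset.sum_le_sum_of_subset_of_nonneg (Finset.erase_subset_erase _ (Finset.filter_subset _ _))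
          (fun b _ _ => by split_ifs <;> norm_num)
      refine le_trans (le_of_eq ?_) e2
      refine Finset.sum_congr rfl fun b hb => ?_
      have hb' := Finset.mem_of_mem_erase hb
      rw [hJ, Finset.mem_filter] at ha hb'
      rw [if_pos ⟨ha.2, hb'.2⟩]
    have h3 : ∑ a ∈ J, ∑ b ∈ J.erase a, (1:ℝ) = (J.card : ℝ) * ((J.card : ℝ) - 1) := by
      have : ∀ a ∈ J, ∑ b ∈ J.erase a, (1:ℝ) = (J.card : ℝ) - 1 := by
        intro a ha
        rw [Finset.sum_const, nsmul_eq_mul, mul_one, Finset.card_erase_of_mem ha, Nat.cast_sub 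
          (Finset.card_pos.2 ⟨a, ha⟩)]
        simp
      rw [Finset.sum_congr rfl this, Finset.sum_const, nsmul_eq_mul]
    rw [h3] at h2
    nlinarith [sq_nonneg ((J.card : ℝ) - 1)]
  | (k+1), F, s => by
    unfold hit
    have h1 : ∑ a ∈ F, ∑ l, p l * hit p g ξ k ((act (g l))⁻¹ (s a)) = 
        ∑ l, p l * ∑ a ∈ F, hit p g ξ k ((act (g l))⁻¹ (s a)) := by
      rw [Finset.sum_comm]
      exact Finset.sum_congr rfl fun l _ => by rw [Finset.mul_sum]
    have h2 : ∑ a ∈ F, ∑ b ∈ F.erase a, ∑ l, p l * hit p g ξ k ((act (g l))⁻¹ (s a ⊓ s b)) = 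
        ∑ l, p l * ∑ a ∈ F, ∑ b ∈ F.erase a, hit p g ξ k ((act (g l))⁻¹ (s a) ⊓ (act (g l))⁻¹ (s b)) := by
      have e1 : ∀ a ∈ F, ∑ b ∈ F.erase a, ∑ l, p l * hit p g ξ k ((act (g l))⁻¹ (s a ⊓ s b)) = 
          ∑ l, p l * ∑ b ∈ F.erase a, hit p g ξ k ((act (g l))⁻¹ (s a) ⊓ (act (g l))⁻¹ (s b)) := by
        intro a _
        rw [Finset.sum_comm]
        exact Finset.sum_congr rfl fun l _ => by rw [Finset.mul_sum]; rfl
      rw [Finset.sum_congr rfl e1, Finset.sum_comm]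
      exact Finset.sum_congr rfl fun l _ => by rw [Finset.mul_sum]
    rw [h1, h2]
    have h3 : (1:ℝ) + ∑ l, p l * ∑ a ∈ F, ∑ b ∈ F.erase a, 
        hit p g ξ k ((act (g l))⁻¹ (s a) ⊓ (act (g l))⁻¹ (s b)) = 
        ∑ l, p l * (1 + ∑ a ∈ F, ∑ b ∈ F.erase a, 
          hit p g ξ k ((act (g l))⁻¹ (s a) ⊓ (act (g l))⁻¹ (s b))) := by
      simp only [mul_add, mul_one, Finset.sum_add_distrib, hs]
    rw [h3]
    exact Finset.sum_le_sum fun l _ => mul_le_mul_of_nonneg_left 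
      (bonferroni hp hs k F (fun a => (act (g l))⁻¹ (s a))) (hp l)

/-- the step of the induction -/
theorem core [FiniteDimensional ℂ V] (hp : ∀ l, 0 ≤ p l) (hs : ∑ l, p l = 1) 
    (𝒲 N : Set (Submodule ℂ V)) 
    (h𝒲 : ∀ W ∈ 𝒲, ∀ l, (act (g l))⁻¹ W ∈ 𝒲) (h𝒲' : ∀ W ∈ 𝒲, ∀ W' ≤ W, W' ∈ 𝒲)
    (hN : ∀ W, ∀ l, (act (g l))⁻¹ W ∈ N → W ∈ N) 
    (hN' : ∀ W ∈ 𝒲, W ∉ N → ∀ k, hit p g ξ k W = 0) (ρ : ℝ) (hρ0 : 0 ≤ ρ)
    (hρ : ∀ f : L2 (Submodule ℂ V), (∀ W, W ∉ N → f W = 0) → 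
      ‖avg p (fun l => act (g l)) f‖ ≤ ρ * ‖f‖)
    (d k : ℕ) (τ c : ℝ) (hτ : 0 < τ) (hc : 0 ≤ c) (hcτ : 9 * c ≤ τ ^ 2)
    (hd : ∀ W ∈ 𝒲, Module.finrank ℂ W ≤ d → hit p g ξ k W ≤ c) 
    (W : Submodule ℂ V) (hW : W ∈ 𝒲) (hWd : Module.finrank ℂ W = d + 1) :
    hit p g ξ (2 * k) W ≤ τ + √2 * ρ ^ k := by
  classical
  -- the set of the subspaces with large probability
  set Fτ : Set (Submodule ℂ V) := {W | W ∈ 𝒲 ∧ Module.finrank ℂ W = d + 1 ∧ τ < hit p g ξ k W} with hF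
  have h1 : ∀ F : Finset (Submodule ℂ V), (∀ W ∈ F, W ∈ Fτ) → ∑ W ∈ F, hit p g ξ k W ≤ 2 := by
    intro F
    induction F using Finset.induction_on with
    | empty => intro _; simp
    | insert a F ha ih =>
      intro hF2
      have ih' := ih (fun W hW => hF2 W (Finset.mem_insert_of_mem hW))
      have haF := hF2 a (Finset.mem_insert_self a F)
      have hτ1 : τ < 1 := lt_of_lt_of_le haF.2.2 (hit_le_one hp hs k a)
      have hcard : (F.card : ℝ) * τ ≤ 2 := by
        refine le_trans ?_ ih'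
        rw [← nsmul_eq_mul]
        exact Finset.card_nsmul_le_sum F _ τ (fun W hW => 
          (hF2 W (Finset.mem_insert_of_mem hW)).2.2.le)
      have hb := bonferroni (g := g) (ξ := ξ) hp hs k (insert a F) (fun W => W)
      have hpair : ∑ W ∈ insert a F, ∑ W' ∈ (insert a F).erase W, hit p g ξ k (W ⊓ W') ≤ 
          ∑ W ∈ insert a F, ∑ W' ∈ insert a F, c := by
        refine Finset.sum_le_sum fun W hW => ?_
        have e1 : ∑ W' ∈ (insert a F).erase W, hit p g ξ k (W ⊓ W') ≤ 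
            ∑ W' ∈ (insert a F).erase W, c := by
          refine Finset.sum_le_sum fun W' hW' => ?_
          have hne := Finset.ne_of_mem_erase hW'
          have hW1 := hF2 W hW
          have hW2 := hF2 W' (Finset.mem_of_mem_erase hW')
          apply hd _ (h𝒲' W hW1.1 _ inf_le_left)
          have hlt : W ⊓ W' < W := by
            refine lt_of_le_of_ne inf_le_left fun he => hne ?_
            have hle : W ≤ W' := inf_eq_left.1 he
            exact (Submodule.eq_of_le_of_finrank_eq hle (by rw [hW1.2.1, hW2.2.1])).symm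
          have := Submodule.finrank_lt_finrank_of_lt hlt
          rw [hW1.2.1] at this
          omega
        exact le_trans e1 (Finset.sum_le_sum_of_subset_of_nonneg (Finset.erase_subset _ _) 
          (fun _ _ _ => hc))
      rw [Finset.sum_const, Finset.sum_const, nsmul_eq_mul, nsmul_eq_mul, 
        Finset.card_insert_of_notMem ha] at hpair
      push_cast at hpair
      have hn : ((F.card : ℝ) + 1) * τ ≤ 3 := by nlinarith
      have hn2 : (((F.card : ℝ) + 1) * τ) ^ 2 ≤ 9 := by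
        have : 0 ≤ ((F.card : ℝ) + 1) * τ := by positivity
        nlinarith
      have hn3 : 9 * (((F.card : ℝ) + 1) * (((F.card : ℝ) + 1) * c)) ≤ 9 := by
        have : ((F.card : ℝ) + 1) ^ 2 * (9 * c) ≤ ((F.card : ℝ) + 1) ^ 2 * τ ^ 2 := 
          mul_le_mul_of_nonneg_left hcτ (by positivity)
        nlinarith
      linarith
  have hfin : Fτ.Finite := by
    by_contra hinf
    have hinf : Fτ.Infinite := hinf
    obtain ⟨n, hn⟩ := exists_nat_gt (2 / τ)
    obtain ⟨F, hF1, hF2⟩ := hinf.exists_subset_card_eq n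
    have h2 := h1 F (fun W hW => hF1 hW)
    have h3 : (F.card : ℝ) * τ ≤ 2 := by
      refine le_trans ?_ h2
      rw [← nsmul_eq_mul]
      exact Finset.card_nsmul_le_sum F _ τ (fun W hW => (hF1 hW).2.2.le)
    rw [hF2] at h3
    rw [div_lt_iff₀ hτ] at hn
    linarith
  -- the function φ
  have hsum : Summable fun W => (if W ∈ Fτ then hit p g ξ k W else 0) ^ 2 := by
    refine summable_of_ne_finset_zero (s := hfin.toFinset) fun W hW => ?_
    rw [if_neg (fun h => hW (hfin.mem_toFinset.2 h))]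
    simp
  let φ : L2 (Submodule ℂ V) := ⟨fun W => if W ∈ Fτ then hit p g ξ k W else 0, mem_of_summable hsum⟩
  have hφ : ∀ W, φ W = if W ∈ Fτ then hit p g ξ k W else 0 := fun W => rfl
  have hφn : ‖φ‖ ≤ √2 := by
    have e1 : ‖φ‖ ^ 2 ≤ 2 := by
      rw [norm_sq, tsum_eq_sum (s := hfin.toFinset) (fun W hW => by
        rw [hφ, if_neg (fun h => hW (hfin.mem_toFinset.2 h))]; simp)]
      refine le_trans (Finset.sum_le_sum (g := fun W => hit p g ξ k W) fun W hW => ?_) 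
        (h1 hfin.toFinset (fun W hW => hfin.mem_toFinset.1 hW))
      rw [hφ, if_pos (hfin.mem_toFinset.1 hW)]
      have e2 := hit_nonneg (g := g) (ξ := ξ) hp k W
      have e3 := hit_le_one (g := g) (ξ := ξ) hp hs k W
      nlinarith
    exact Real.le_sqrt_of_sq_le e1
  -- iterate
  have hsupp : ∀ j, ∀ W, W ∉ N → ((avg p (fun l => act (g l)))^[j] φ) W = 0 := by
    intro j
    induction j with
    | zero =>
      intro W hW
      rw [Function.iterate_zero, id_eq, hφ]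
      split_ifs with h
      · exact hN' W h.1 hW k
      · rfl
    | succ j ih =>
      intro W hW
      rw [Function.iterate_succ_apply', avg_apply]
      refine Finset.sum_eq_zero fun l _ => ?_
      rw [ih _ (fun h => hW (hN W l h)), mul_zero]
  have hnorm : ∀ j, ‖(avg p (fun l => act (g l)))^[j] φ‖ ≤ ρ ^ j * √2 := by
    intro j
    induction j with
    | zero => simpa using hφn
    | succ j ih =>
      rw [Function.iterate_succ_apply']
      refine le_trans (hρ _ (hsupp j)) ?_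
      rw [pow_succ']
      have := mul_le_mul_of_nonneg_left ih hρ0
      linarith
  have hmain : ∀ j, ∀ W ∈ 𝒲, Module.finrank ℂ W = d + 1 → 
      hit p g ξ (k + j) W ≤ τ + ((avg p (fun l => act (g l)))^[j] φ) W := by
    intro j
    induction j with
    | zero =>
      intro W hW hWd
      rw [Function.iterate_zero, id_eq, hφ, add_zero]
      split_ifs with h
      · linarith
      · rw [add_zero]
        by_contra hcon
        exact h ⟨hW, hWd, not_le.1 hcon⟩
    | succ j ih =>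
      intro W hW hWd
      rw [Function.iterate_succ_apply', avg_apply, ← add_assoc]
      have e1 : hit p g ξ (k + j + 1) W = ∑ l, p l * hit p g ξ (k + j) ((act (g l))⁻¹ W) := rfl
      have e2 : τ = ∑ l, p l * τ := by rw [← Finset.sum_mul, hs, one_mul]
      rw [e1]
      calc ∑ l, p l * hit p g ξ (k + j) ((act (g l))⁻¹ W) 
          ≤ ∑ l, p l * (τ + ((avg p (fun l => act (g l)))^[j] φ) ((act (g l))⁻¹ W)) := 
            Finset.sum_le_sum fun l _ => mul_le_mul_of_nonneg_left 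
              (ih _ (h𝒲 W hW l) (by rw [act_inv_finrank, hWd])) (hp l)
        _ = _ := by
            simp only [mul_add, Finset.sum_add_distrib]
            rw [← e2]
  have h5 := hmain k W hW hWd
  have h6 : ((avg p (fun l => act (g l)))^[k] φ) W ≤ ‖(avg p (fun l => act (g l)))^[k] φ‖ := by
    have := lp.norm_apply_le_norm (p := 2) (by norm_num) ((avg p (fun l => act (g l)))^[k] φ) W
    exact le_trans (le_abs_self _) this
  rw [two_mul]
  have h7 := hnorm k
  linarith [mul_comm (√2) (ρ ^ k)]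

/-- exponential decay -/
theorem hit_decay [FiniteDimensional ℂ V] (hp : ∀ l, 0 ≤ p l) (hs : ∑ l, p l = 1) 
    (N : Set (Submodule ℂ V)) (hN : ∀ W, ∀ l, (act (g l))⁻¹ W ∈ N → W ∈ N) (hbot : ⊥ ∉ N)
    (ρ : ℝ) (hρ0 : 0 ≤ ρ) (hρ1 : ρ < 1)
    (hρ : ∀ f : L2 (Submodule ℂ V), (∀ W, W ∉ N → f W = 0) → 
      ‖avg p (fun l => act (g l)) f‖ ≤ ρ * ‖f‖) (d : ℕ) :
    ∃ C r : ℝ, 0 ≤ C ∧ 0 ≤ r ∧ r < 1 ∧ ∀ 𝒲 : Set (Submodule ℂ V), 
      (∀ W ∈ 𝒲, ∀ l, (act (g l))⁻¹ W ∈ 𝒲) → (∀ W ∈ 𝒲, ∀ W' ≤ W, W' ∈ 𝒲) → 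
      (∀ W ∈ 𝒲, W ∉ N → ∀ k, hit p g ξ k W = 0) → 
      ∀ W ∈ 𝒲, Module.finrank ℂ W ≤ d → ∀ k, hit p g ξ k W ≤ C * r ^ k := by
  induction d with
  | zero =>
    refine ⟨1, 1 / 2, by norm_num, by norm_num, by norm_num, ?_⟩
    intro 𝒲 _ _ hN' W hW hd k
    have : W = ⊥ := Submodule.finrank_eq_zero.1 (Nat.le_zero.1 hd)
    subst this
    rw [hN' _ hW hbot k]
    positivity
  | succ d ih =>
    obtain ⟨C, r, hC, hr0, hr1, ih⟩ := ih
    set s : ℝ := max (max (√r) ρ) (1 / 2) with hsdef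
    have hs1 : s < 1 := by
      refine max_lt (max_lt ?_ hρ1) (by norm_num)
      rw [Real.sqrt_lt' one_pos]; simpa using hr1
    have hs2 : 1 / 2 ≤ s := le_max_right _ _
    have hs3 : √r ≤ s := le_trans (le_max_left _ _) (le_max_left _ _)
    have hs4 : ρ ≤ s := le_trans (le_max_right _ _) (le_max_left _ _)
    have hs5 : r ≤ s ^ 2 := by
      calc r = √r ^ 2 := (Real.sq_sqrt hr0).symm
        _ ≤ s ^ 2 := by gcongr
    set K : ℝ := 3 * √(C + 1) + √2 with hK
    have hK0 : 0 ≤ K := by positivity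
    set r' : ℝ := √s with hr'
    have hr'2 : r' ^ 2 = s := Real.sq_sqrt (by linarith)
    have hr'0 : 0 ≤ r' := Real.sqrt_nonneg _
    have hr'1 : r' < 1 := by
      rw [hr', Real.sqrt_lt' one_pos]; simpa using hs1
    have hr'3 : 1 / 2 ≤ r' := by
      by_contra h
      push Not at h
      nlinarith
    have hr'4 : r ≤ r' := by nlinarith
    refine ⟨C + 2 * K, r', by positivity, hr'0, hr'1, ?_⟩
    intro 𝒲 h𝒲 h𝒲' hN' W hW hWd n
    rcases Nat.lt_or_ge (Module.finrank ℂ W) (d + 1) with hlt | hge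
    · have h1 := ih 𝒲 h𝒲 h𝒲' hN' W hW (by omega) n
      refine le_trans h1 ?_
      have h2 : r ^ n ≤ r' ^ n := by gcongr
      have h3 : 0 ≤ r' ^ n := by positivity
      nlinarith [mul_le_mul_of_nonneg_left h2 hC, mul_nonneg hK0 h3]
    · have hWd' : Module.finrank ℂ W = d + 1 := by omega
      have heven : ∀ k, ∀ W ∈ 𝒲, Module.finrank ℂ W = d + 1 → hit p g ξ (2 * k) W ≤ K * s ^ k := by
        intro k W hW hWd
        have h1 := core (g := g) (ξ := ξ) hp hs 𝒲 N h𝒲 h𝒲' hN hN' ρ hρ0 hρ d k 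
          (3 * √(C + 1) * s ^ k) (C * r ^ k) (by positivity) (by positivity) (by
            have e1 : (3 * √(C + 1) * s ^ k) ^ 2 = 9 * (C + 1) * (s ^ 2) ^ k := by
              rw [mul_pow, mul_pow, Real.sq_sqrt (by linarith)]; ring
            rw [e1]
            have e2 : r ^ k ≤ (s ^ 2) ^ k := by gcongr
            have e3 : 0 ≤ (s ^ 2) ^ k := by positivity
            nlinarith [mul_le_mul_of_nonneg_left e2 hC]) 
          (fun W hW hd => ih 𝒲 h𝒲 h𝒲' hN' W hW hd k) W hW hWd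
        refine le_trans h1 ?_
        have h2 : ρ ^ k ≤ s ^ k := by gcongr
        have h3 := mul_le_mul_of_nonneg_left h2 (Real.sqrt_nonneg 2)
        rw [hK]
        linarith
      have hr'5 : ∀ k, s ^ k = r' ^ (2 * k) := fun k => by rw [pow_mul, hr'2]
      rcases Nat.even_or_odd' n with ⟨k, rfl | rfl⟩
      · refine le_trans (heven k W hW hWd') ?_
        rw [hr'5]
        have : 0 ≤ r' ^ (2 * k) := by positivity
        nlinarith [mul_nonneg hK0 this, mul_nonneg hC this]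
      · have e1 : hit p g ξ (2 * k + 1) W = ∑ l, p l * hit p g ξ (2 * k) ((act (g l))⁻¹ W) := rfl
        have e2 : hit p g ξ (2 * k + 1) W ≤ K * s ^ k := by
          rw [e1]
          calc ∑ l, p l * hit p g ξ (2 * k) ((act (g l))⁻¹ W) ≤ ∑ l, p l * (K * s ^ k) := 
                Finset.sum_le_sum fun l _ => mul_le_mul_of_nonneg_left 
                  (heven k _ (h𝒲 W hW l) (by rw [act_inv_finrank, hWd'])) (hp l)
            _ = K * s ^ k := by rw [← Finset.sum_mul, hs, one_mul]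
        refine le_trans e2 ?_
        rw [hr'5, pow_succ]
        have h3 : 0 ≤ r' ^ (2 * k) := by positivity
        have h4 : K * r' ^ (2 * k) ≤ 2 * K * (r' ^ (2 * k) * r') := by
          nlinarith [mul_nonneg hK0 h3]
        have h5 : 0 ≤ C * (r' ^ (2 * k) * r') := by positivity
        nlinarith

end Pool.Agent.W705.JR
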