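import Pool.Agent.W705.JR.Rep

set_option autoImplicit false

namespace Pool.Agent.W705.JR

open Finset Matrix Pool.Agent.H891R2.Jones Pool.Agent.W639.RB

section iota

variable {R : Type*} [Ring R] [Algebra ℂ R]

/-- relations of two neighbouring Temperley-Lieb generators, loop value 3 -/
structure TL2 (a b : R) : Prop where
  aa : a * a = (3:ℂ) • a
  bb : b * b = (3:ℂ) • b
  aba : a * b * a = a
  bab : b * a * b = b

/-- the (non unital) homomorphism of the `2 × 2` matrices -/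
noncomputable def io (a b : R) : Matrix (Fin 2) (Fin 2) ℂ →ₗ[ℂ] R where
  toFun Y := (1/8 : ℂ) • ((3 * Y 0 0 - Y 0 1) • a + (3 * Y 0 1 - Y 0 0) • (a * b) + 
    (3 * Y 1 1 - Y 1 0) • b + (3 * Y 1 0 - Y 1 1) • (b * a))
  map_add' Y Z := by
    simp only [Matrix.add_apply]
    match_scalars <;> ring
  map_smul' c Y := by
    simp only [Matrix.smul_apply, smul_eq_mul, RingHom.id_apply]
    match_scalars <;> ring

theorem io_apply (a b : R) (Y : Matrix (Fin 2) (Fin 2) ℂ) : 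
    io a b Y = (1/8 : ℂ) • ((3 * Y 0 0 - Y 0 1) • a + (3 * Y 0 1 - Y 0 0) • (a * b) + 
    (3 * Y 1 1 - Y 1 0) • b + (3 * Y 1 0 - Y 1 1) • (b * a)) := rfl

theorem io_mul {a b : R} (h : TL2 a b) (Y Z : Matrix (Fin 2) (Fin 2) ℂ) : 
    io a b (Y * Z) = io a b Y * io a b Z := by
  have h1 : a * (a * b) = (3:ℂ) • (a * b) := by rw [← mul_assoc, h.aa, smul_mul_assoc]
  have h2 : a * (b * a) = a := by rw [← mul_assoc, h.aba]
  have h3 : a * b * (a * b) = a * b := by rw [← mul_assoc, h.aba]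
  have h4 : a * b * b = (3:ℂ) • (a * b) := by rw [mul_assoc, h.bb, mul_smul_comm]
  have h5 : a * b * (b * a) = (3:ℂ) • a := by
    rw [← mul_assoc, mul_assoc a b b, h.bb, mul_smul_comm, smul_mul_assoc, h.aba]
  have h6 : b * (a * b) = b := by rw [← mul_assoc, h.bab]
  have h7 : b * (b * a) = (3:ℂ) • (b * a) := by rw [← mul_assoc, h.bb, smul_mul_assoc]
  have h8 : b * a * a = (3:ℂ) • (b * a) := by rw [mul_assoc, h.aa, mul_smul_comm]
  have h9 : b * a * (a * b) = (3:ℂ) • b := by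
    rw [← mul_assoc, mul_assoc b a a, h.aa, mul_smul_comm, smul_mul_assoc, h.bab]
  have h10 : b * a * (b * a) = b * a := by rw [← mul_assoc, h.bab]
  simp only [io_apply, Matrix.mul_apply, Fin.sum_univ_two, mul_add, add_mul, smul_mul_assoc, 
    mul_smul_comm, h.aa, h.bb, h.aba, h.bab, h1, h2, h3, h4, h5, h6, h7, h8, h9, h10]
  match_scalars <;> ring

/-- the unital version -/
noncomputable def th (a b : R) (Y : Matrix (Fin 2) (Fin 2) ℂ) : R := 1 + io a b (Y - 1)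

theorem th_one (a b : R) : th a b 1 = 1 := by
  unfold th; rw [sub_self, map_zero, add_zero]

theorem th_mul {a b : R} (h : TL2 a b) (Y Z : Matrix (Fin 2) (Fin 2) ℂ) : 
    th a b (Y * Z) = th a b Y * th a b Z := by
  unfold th
  have e : Y * Z - 1 = (Y - 1) * (Z - 1) + (Y - 1) + (Z - 1) := by noncomm_ring
  rw [e, map_add, map_add, io_mul h]
  noncomm_ring

end iota

/-- the matrices of the two 3-cycles of the braid group on three strands -/
noncomputable def Mu : Matrix (Fin 2) (Fin 2) ℂ := 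
  !![1 + 3 * A3 ^ 2, A3 ^ 2; (A3⁻¹) ^ 2 + 3, 2 + 3 * (A3⁻¹) ^ 2]

noncomputable def Mv : Matrix (Fin 2) (Fin 2) ℂ := 
  !![2 + 3 * A3 ^ 2, A3 ^ 2 + 3; (A3⁻¹) ^ 2, 1 + 3 * (A3⁻¹) ^ 2]

theorem A3_mul : A3 ^ 2 * (A3⁻¹) ^ 2 = 1 := by
  rw [← mul_pow, mul_inv_cancel₀ A3_ne, one_pow]

theorem Mu_det : Mu.det = 1 := by
  rw [Matrix.det_fin_two]
  unfold Mu
  simp only [Matrix.of_apply, Matrix.cons_val', Matrix.cons_val_zero, Matrix.cons_val_one, 
    Matrix.cons_val_fin_one]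
  linear_combination 8 * A3_mul + 3 * A3_d

theorem Mv_det : Mv.det = 1 := by
  rw [Matrix.det_fin_two]
  unfold Mv
  simp only [Matrix.of_apply, Matrix.cons_val', Matrix.cons_val_zero, Matrix.cons_val_one, 
    Matrix.cons_val_fin_one]
  linear_combination 8 * A3_mul + 3 * A3_d

theorem Mu_trace : Mu.trace = -6 := by
  rw [Matrix.trace_fin_two]
  unfold Mu
  simp only [Matrix.of_apply, Matrix.cons_val', Matrix.cons_val_zero, Matrix.cons_val_one, 
    Matrix.cons_val_fin_one]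
  linear_combination 3 * A3_d

theorem Mv_trace : Mv.trace = -6 := by
  rw [Matrix.trace_fin_two]
  unfold Mv
  simp only [Matrix.of_apply, Matrix.cons_val', Matrix.cons_val_zero, Matrix.cons_val_one, 
    Matrix.cons_val_fin_one]
  linear_combination 3 * A3_d

theorem no_common : ¬ ∃ x : Fin 2 → ℂ, x ≠ 0 ∧ (∃ c : ℂ, Mu *ᵥ x = c • x) ∧ 
    ∃ c : ℂ, Mv *ᵥ x = c • x := by
  rintro ⟨x, hx, ⟨c, hc⟩, d, hd⟩
  have c0 := congrFun hc 0
  have c1 := congrFun hc 1
  have d0 := congrFun hd 0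
  have d1 := congrFun hd 1
  unfold Mu at c0 c1
  unfold Mv at d0 d1
  simp only [Matrix.mulVec, dotProduct, Fin.sum_univ_two, Matrix.of_apply, Matrix.cons_val', 
    Matrix.cons_val_zero, Matrix.cons_val_one, Matrix.cons_val_fin_one, Pi.smul_apply, 
    smul_eq_mul] at c0 c1 d0 d1
  set a := A3 ^ 2 with ha
  set b := (A3⁻¹) ^ 2 with hb
  have hab : a * b = 1 := A3_mul
  have hs : 3 = - a - b := A3_d
  have hne : a - b ≠ 0 := by
    intro h
    have : (5 : ℂ) = 0 := by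
      linear_combination (a - b) * h + 4 * hab + (3 - a - b) * hs
    norm_num at this
  have P : a * (x 0 ^ 2 + x 1 ^ 2) + (3 * (a - b) - 1) * (x 0 * x 1) = 0 := by
    linear_combination x 1 * c0 - x 0 * c1 + x 0 ^ 2 * hs
  have Q : -b * (x 0 ^ 2 + x 1 ^ 2) + (3 * (a - b) + 1) * (x 0 * x 1) = 0 := by
    linear_combination x 1 * d0 - x 0 * d1 - x 1 ^ 2 * hs
  have S : x 0 ^ 2 + x 1 ^ 2 = -6 * (x 0 * x 1) := by
    have : (a - b) * ((x 0 ^ 2 + x 1 ^ 2) + 6 * (x 0 * x 1)) = 0 := by linear_combination P + Q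
    rcases mul_eq_zero.1 this with h | h
    · exact absurd h hne
    · linear_combination h
  have p0 : x 0 * x 1 = 0 := by
    have : (16 : ℂ) * (x 0 * x 1) = 0 := by
      linear_combination P - Q - (x 0 ^ 2 + x 1 ^ 2) * hs + 3 * S
    rcases mul_eq_zero.1 this with h | h
    · norm_num at h
    · exact h
  rw [p0, mul_zero] at S
  apply hx
  rcases mul_eq_zero.1 p0 with h | h
  · rw [h] at S
    have h1 : x 1 = 0 := by
      have : x 1 ^ 2 = 0 := by linear_combination S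
      exact pow_eq_zero_iff (two_ne_zero) |>.1 this
    funext i; fin_cases i
    · exact h
    · exact h1
  · rw [h] at S
    have h1 : x 0 = 0 := by
      have : x 0 ^ 2 = 0 := by linear_combination S
      exact pow_eq_zero_iff (two_ne_zero) |>.1 this
    funext i; fin_cases i
    · exact h1
    · exact h

theorem th_Mu {R : Type*} [Ring R] [Algebra ℂ R] (a b : R) : 
    th a b Mu = 1 + A3 ^ 2 • a + (A3⁻¹) ^ 2 • b + b * a := by
  unfold th Mu
  rw [io_apply]
  simp only [Matrix.sub_apply, Matrix.of_apply, Matrix.cons_val', Matrix.cons_val_zero, 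
    Matrix.cons_val_one, Matrix.cons_val_fin_one, Matrix.one_apply_eq, 
    Matrix.one_apply_ne (zero_ne_one), Matrix.one_apply_ne (one_ne_zero)]
  match_scalars <;> ring

theorem th_Mv {R : Type*} [Ring R] [Algebra ℂ R] (a b : R) : 
    th a b Mv = 1 + A3 ^ 2 • a + (A3⁻¹) ^ 2 • b + a * b := by
  unfold th Mv
  rw [io_apply]
  simp only [Matrix.sub_apply, Matrix.of_apply, Matrix.cons_val', Matrix.cons_val_zero, 
    Matrix.cons_val_one, Matrix.cons_val_fin_one, Matrix.one_apply_eq, 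
    Matrix.one_apply_ne (zero_ne_one), Matrix.one_apply_ne (one_ne_zero)]
  match_scalars <;> ring

variable {m : ℕ}

theorem e_TL2 (i : ℕ) (hi : i + 2 < m) : TL2 (e m i) (e m (i+1)) where
  aa := by have := (e_TL m).sq i (by omega); exact_mod_cast this
  bb := by have := (e_TL m).sq (i+1) (by omega); exact_mod_cast this
  aba := (e_TL m).up i hi
  bab := (e_TL m).down i hi

/-- the homomorphism to the endomorphisms of `V1 × V2` -/
noncomputable def IO (m i : ℕ) (Y : Matrix (Fin 2) (Fin 2) ℂ) : Module.End ℂ (VV m) :=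
  LinearMap.prodMap (io (e m i) (e m (i+1)) Y) 0

noncomputable def TH (m i : ℕ) (Y : Matrix (Fin 2) (Fin 2) ℂ) : Module.End ℂ (VV m) :=
  LinearMap.prodMap (th (e m i) (e m (i+1)) Y) 1

theorem TH_eq (i : ℕ) (Y : Matrix (Fin 2) (Fin 2) ℂ) (v : VV m) : 
    TH m i Y v = v + IO m i (Y - 1) v := by
  refine Prod.ext ?_ ?_
  · rfl
  · show v.2 = v.2 + 0
    rw [add_zero]

theorem TH_one (i : ℕ) : TH m i 1 = 1 := by
  unfold TH
  rw [th_one]
  rfl

theorem TH_mul (i : ℕ) (hi : i + 2 < m) (Y Z : Matrix (Fin 2) (Fin 2) ℂ) : 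
    TH m i (Y * Z) = TH m i Y * TH m i Z := by
  unfold TH
  rw [th_mul (e_TL2 i hi)]
  rfl

theorem IO_mul (i : ℕ) (hi : i + 2 < m) (Y Z : Matrix (Fin 2) (Fin 2) ℂ) (v : VV m) : 
    IO m i (Y * Z) v = IO m i Y (IO m i Z v) := by
  unfold IO
  rw [io_mul (e_TL2 i hi)]
  rfl

theorem IO_add (i : ℕ) (Y Z : Matrix (Fin 2) (Fin 2) ℂ) (v : VV m) : 
    IO m i (Y + Z) v = IO m i Y v + IO m i Z v := by
  unfold IO
  rw [map_add]
  refine Prod.ext ?_ ?_
  · rfl
  · show (0 : V2 m) = 0 + 0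
    rw [add_zero]

theorem IO_smul (i : ℕ) (c : ℂ) (Y : Matrix (Fin 2) (Fin 2) ℂ) (v : VV m) : 
    IO m i (c • Y) v = c • IO m i Y v := by
  unfold IO
  rw [map_smul]
  refine Prod.ext ?_ ?_
  · rfl
  · show (0 : V2 m) = c • 0
    rw [smul_zero]

theorem IO_formula (i : ℕ) (Y : Matrix (Fin 2) (Fin 2) ℂ) (v : VV m) : 
    IO m i Y v = (1/8 : ℂ) • ((3 * Y 0 0 - Y 0 1) • EE2 i v + (3 * Y 0 1 - Y 0 0) • (EE2 i (EE2 (i+1) v)) + 
    (3 * Y 1 1 - Y 1 0) • EE2 (i+1) v + (3 * Y 1 0 - Y 1 1) • (EE2 (i+1) (EE2 i v))) := by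
  refine Prod.ext ?_ ?_
  · rfl
  · show (0 : V2 m) = (1/8 : ℂ) • ((3 * Y 0 0 - Y 0 1) • (0 : V2 m) + (3 * Y 0 1 - Y 0 0) • (0 : V2 m) + 
      (3 * Y 1 1 - Y 1 0) • (0 : V2 m) + (3 * Y 1 0 - Y 1 1) • (0 : V2 m))
    simp

/-- the group `GL_2` acts -/
noncomputable def Tg (i : ℕ) (hi : i + 2 < m) : GL (Fin 2) ℂ →* (VV m ≃ₗ[ℂ] VV m) :=
  (LinearMap.GeneralLinearGroup.generalLinearEquiv ℂ (VV m)).toMonoidHom.comp 
    (Units.map { toFun := TH m i, map_one' := TH_one i, map_mul' := TH_mul i hi })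

theorem Tg_apply (i : ℕ) (hi : i + 2 < m) (Y : GL (Fin 2) ℂ) (v : VV m) : 
    Tg i hi Y v = TH m i (Y : Matrix (Fin 2) (Fin 2) ℂ) v := rfl

/-- the action on subspaces as a homomorphism -/
noncomputable def actH (V : Type*) [AddCommGroup V] [Module ℂ V] : 
    (V ≃ₗ[ℂ] V) →* Equiv.Perm (Submodule ℂ V) where
  toFun := act
  map_one' := by
    apply Equiv.ext; intro W
    exact Submodule.map_id W
  map_mul' g h := by
    apply Equiv.ext; intro W
    exact Submodule.map_comp (h : V →ₗ[ℂ] V) (g : V →ₗ[ℂ] V) W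

theorem actH_apply {V : Type*} [AddCommGroup V] [Module ℂ V] (g : V ≃ₗ[ℂ] V) : actH V g = act g := rfl

end Pool.Agent.W705.JR
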