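import Mathlib

set_option autoImplicit false

namespace Pool.Agent.W705.JR

open scoped ENNReal

/-- square summable real functions on `X` -/
abbrev L2 (X : Type*) := lp (fun _ : X => ℝ) 2

variable {X : Type*}

theorem norm_sq (f : L2 X) : ‖f‖ ^ 2 = ∑' x, (f x) ^ 2 := by
  have h := lp.norm_rpow_eq_tsum (p := 2) (by norm_num) f
  simpa using h

theorem summable_sq (f : L2 X) : Summable fun x => (f x) ^ 2 := by
  have h := (memℓp_gen_iff (p := 2) (by norm_num)).1 (lp.memℓp f)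
  simpa using h

theorem mem_of_summable {f : X → ℝ} (h : Summable fun x => (f x) ^ 2) :
    Memℓp f 2 := by
  rw [memℓp_gen_iff (p := 2) (by norm_num)]
  simpa using h

theorem summable_perm (σ : Equiv.Perm X) (f : L2 X) : Summable fun x => (f (σ⁻¹ x)) ^ 2 := 
  (Equiv.summable_iff (σ⁻¹ : Equiv.Perm X) (f := fun x => (f x) ^ 2)).2 (summable_sq f)

/-- the function `x ↦ f (σ⁻¹ x)` -/
noncomputable def sh (σ : Equiv.Perm X) (f : L2 X) : L2 X :=
  ⟨fun x => f (σ⁻¹ x), mem_of_summable (summable_perm σ f)⟩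

@[simp] theorem sh_apply (σ : Equiv.Perm X) (f : L2 X) (x : X) : sh σ f x = f (σ⁻¹ x) := rfl

theorem sh_add (σ : Equiv.Perm X) (f g : L2 X) : sh σ (f + g) = sh σ f + sh σ g := by
  ext x; simp

theorem sh_sub (σ : Equiv.Perm X) (f g : L2 X) : sh σ (f - g) = sh σ f - sh σ g := by
  ext x; simp

theorem sh_mul (σ τ : Equiv.Perm X) (f : L2 X) : sh (σ * τ) f = sh σ (sh τ f) := by
  ext x; simp only [sh_apply, mul_inv_rev, Equiv.Perm.mul_apply]

theorem sh_one (f : L2 X) : sh 1 f = f := by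
  ext x; simp only [sh_apply, inv_one, Equiv.Perm.one_apply]

theorem sh_norm (σ : Equiv.Perm X) (f : L2 X) : ‖sh σ f‖ = ‖f‖ := by
  have h : ‖sh σ f‖ ^ 2 = ‖f‖ ^ 2 := by
    rw [norm_sq, norm_sq]
    exact (σ⁻¹ : Equiv.Perm X).tsum_eq (fun x => (f x) ^ 2)
  exact (sq_eq_sq₀ (norm_nonneg _) (norm_nonneg _)).1 h

open Classical in
theorem summable_res (S : Set X) (f : L2 X) : 
    Summable fun x => (if x ∈ S then f x else 0) ^ 2 := by
  refine Summable.of_nonneg_of_le (fun x => sq_nonneg _) (fun x => ?_) (summable_sq f)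
  split_ifs
  · exact le_rfl
  · simpa using sq_nonneg (f x)

open Classical in
/-- restriction of a function to a set -/
noncomputable def res (S : Set X) (f : L2 X) : L2 X := 
  ⟨fun x => if x ∈ S then f x else 0, mem_of_summable (summable_res S f)⟩

open Classical in
@[simp] theorem res_apply (S : Set X) (f : L2 X) (x : X) :
    res S f x = if x ∈ S then f x else 0 := rfl

theorem res_sub (S : Set X) (f g : L2 X) : res S (f - g) = res S f - res S g := by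
  classical
  ext x; simp only [res_apply, lp.coeFn_sub, Pi.sub_apply]; split_ifs <;> simp

theorem res_norm_le (S : Set X) (f : L2 X) : ‖res S f‖ ≤ ‖f‖ := by
  classical
  have h : ‖res S f‖ ^ 2 ≤ ‖f‖ ^ 2 := by
    rw [norm_sq, norm_sq]
    refine Summable.tsum_le_tsum (fun x => ?_) (summable_sq _) (summable_sq f)
    rw [res_apply]
    split_ifs
    · exact le_rfl
    · simpa using sq_nonneg (f x)
  exact (sq_le_sq₀ (norm_nonneg _) (norm_nonneg _)).1 h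

/-- three disjoint sets -/
theorem res_three (S₁ S₂ S₃ : Set X) (h12 : Disjoint S₁ S₂) (h13 : Disjoint S₁ S₃)
    (h23 : Disjoint S₂ S₃) (f : L2 X) :
    ‖res S₁ f‖ ^ 2 + ‖res S₂ f‖ ^ 2 + ‖res S₃ f‖ ^ 2 ≤ ‖f‖ ^ 2 := by
  classical
  rw [norm_sq, norm_sq, norm_sq, norm_sq, ← Summable.tsum_add (summable_sq _) (summable_sq _),
    ← Summable.tsum_add ((summable_sq _).add (summable_sq _)) (summable_sq _)]
  refine Summable.tsum_le_tsum (fun x => ?_) (((summable_sq _).add (summable_sq _)).add 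
    (summable_sq _)) (summable_sq f)
  simp only [res_apply]
  have := sq_nonneg (f x)
  by_cases h1 : x ∈ S₁
  · have h2 : x ∉ S₂ := fun h => Set.disjoint_left.1 h12 h1 h
    have h3 : x ∉ S₃ := fun h => Set.disjoint_left.1 h13 h1 h
    simp [h1, h2, h3]
  · by_cases h2 : x ∈ S₂
    · have h3 : x ∉ S₃ := fun h => Set.disjoint_left.1 h23 h2 h
      simp [h1, h2, h3]
    · by_cases h3 : x ∈ S₃
      · simp [h1, h2, h3]
      · simp [h1, h2, h3, this]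

/-- functions supported on the union of two sets -/
theorem norm_le_two (S T : Set X) (f : L2 X) (hf : ∀ x, f x ≠ 0 → x ∈ S ∨ x ∈ T) :
    ‖f‖ ^ 2 ≤ ‖res S f‖ ^ 2 + ‖res T f‖ ^ 2 := by
  classical
  rw [norm_sq, norm_sq, norm_sq, ← Summable.tsum_add (summable_sq _) (summable_sq _)]
  refine Summable.tsum_le_tsum (fun x => ?_) (summable_sq f) ((summable_sq _).add (summable_sq _))
  simp only [res_apply]
  by_cases h0 : f x = 0
  · rw [h0]; simp
  · have := sq_nonneg (f x)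
    rcases hf x h0 with h | h
    · rw [if_pos h]; split_ifs <;> simp [this]
    · rw [if_pos h]; split_ifs <;> simp [this]

theorem res_sh (σ : Equiv.Perm X) (S : Set X) (f : L2 X) : 
    res (σ '' S) (sh σ f) = sh σ (res S f) := by
  classical
  ext x
  simp only [res_apply, sh_apply]
  have : (x ∈ σ '' S) ↔ (σ⁻¹ x ∈ S) := by
    constructor
    · rintro ⟨y, hy, rfl⟩; simpa using hy
    · intro h; exact ⟨σ⁻¹ x, h, by simp⟩
  by_cases h : σ⁻¹ x ∈ S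
  · rw [if_pos h, if_pos (this.2 h)]
  · rw [if_neg h, if_neg (fun h' => h (this.1 h'))]

theorem half (σ : Equiv.Perm X) (S : Set X) (f : L2 X) (h1 : Disjoint S (σ '' S))
    (h2 : Disjoint S (σ '' (σ '' S))) : 
    3 * ‖res S f‖ ≤ 2 * ‖f‖ + 3 * ‖f - sh σ f‖ := by
  have h12 : Disjoint (σ '' S) (σ '' (σ '' S)) := by
    rw [Set.disjoint_image_iff σ.injective]; exact h1
  have e := res_three S (σ '' S) (σ '' (σ '' S)) h1 h2 h12 f
  have key : ∀ T : Set X, ‖res T f‖ ≤ ‖res (σ '' T) f‖ + ‖f - sh σ f‖ := by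
    intro T
    have e1 : ‖res (σ '' T) (sh σ f)‖ = ‖res T f‖ := by rw [res_sh, sh_norm]
    have e2 : res (σ '' T) (sh σ f) = res (σ '' T) f - res (σ '' T) (f - sh σ f) := by
      rw [res_sub]; abel
    calc ‖res T f‖ = ‖res (σ '' T) f - res (σ '' T) (f - sh σ f)‖ := by rw [← e1, e2]
      _ ≤ ‖res (σ '' T) f‖ + ‖res (σ '' T) (f - sh σ f)‖ := norm_sub_le _ _
      _ ≤ _ := by gcongr; exact res_norm_le _ _
  have k1 := key S
  have k2 := key (σ '' S)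
  have hs : (‖res S f‖ + ‖res (σ '' S) f‖ + ‖res (σ '' (σ '' S)) f‖) ≤ 2 * ‖f‖ := by
    refine abs_le_of_sq_le_sq' ?_ (by positivity) |>.2
    nlinarith [sq_nonneg (‖res S f‖ - ‖res (σ '' S) f‖), sq_nonneg (‖res S f‖ - ‖res (σ '' (σ '' S)) f‖),
      sq_nonneg (‖res (σ '' S) f‖ - ‖res (σ '' (σ '' S)) f‖), sq_nonneg ‖f‖]
  linarith

/-- the ping-pong criterion -/
theorem pingpong (a b : Equiv.Perm X) (A B : Set X) (hB1 : Disjoint B (a '' B))
    (hB2 : Disjoint B (a '' (a '' B))) (hA1 : Disjoint A (b '' A)) (hA2 : Disjoint A (b '' (b '' A)))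
    (f : L2 X) (hf : ∀ x, f x ≠ 0 → x ∈ A ∨ x ∈ B) (ε : ℝ) (ha : ‖f - sh a f‖ ≤ ε)
    (hb : ‖f - sh b f‖ ≤ ε) : ‖f‖ ≤ 25 * ε := by
  have h1 := half a B f hB1 hB2
  have h2 := half b A f hA1 hA2
  have h3 := norm_le_two A B f hf
  have hA0 := norm_nonneg (res A f)
  have hB0 := norm_nonneg (res B f)
  have hf0 := norm_nonneg f
  have hε : 0 ≤ ε := le_trans (norm_nonneg _) ha
  have h4 : ‖res B f‖ ≤ 2 / 3 * ‖f‖ + ε := by linarith
  have h5 : ‖res A f‖ ≤ 2 / 3 * ‖f‖ + ε := by linarith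
  have h6 : ‖f‖ ^ 2 ≤ 2 * (2 / 3 * ‖f‖ + ε) ^ 2 := by
    have e1 : ‖res A f‖ ^ 2 ≤ (2 / 3 * ‖f‖ + ε) ^ 2 := by gcongr
    have e2 : ‖res B f‖ ^ 2 ≤ (2 / 3 * ‖f‖ + ε) ^ 2 := by gcongr
    linarith
  by_contra hcon
  push Not at hcon
  nlinarith [mul_nonneg hf0 hε, mul_nonneg hε hε, mul_nonneg hf0 hf0]

theorem sh_pow_sub (σ : Equiv.Perm X) (f : L2 X) (n : ℕ) : 
    ‖f - sh (σ ^ n) f‖ ≤ n * ‖f - sh σ f‖ := by
  induction n with
  | zero => simp [sh_one]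
  | succ n ih =>
    have e : f - sh (σ ^ (n+1)) f = (f - sh σ f) + sh σ (f - sh (σ ^ n) f) := by
      rw [pow_succ', sh_mul, sh_sub]; abel
    calc ‖f - sh (σ ^ (n+1)) f‖ ≤ ‖f - sh σ f‖ + ‖sh σ (f - sh (σ ^ n) f)‖ := by
          rw [e]; exact norm_add_le _ _
      _ ≤ _ := by rw [sh_norm]; push_cast; linarith

/-- restriction to an invariant set -/
theorem res_inv (σ : Equiv.Perm X) (S : Set X) (hS : ∀ x, σ x ∈ S ↔ x ∈ S) (f : L2 X) :
    ‖res S f - sh σ (res S f)‖ ≤ ‖f - sh σ f‖ := by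
  have h : σ '' S = S := by
    ext x
    constructor
    · rintro ⟨y, hy, rfl⟩; exact (hS y).2 hy
    · intro hx
      exact ⟨σ⁻¹ x, (hS _).1 (by simpa using hx), by simp⟩
  have e : res S f - sh σ (res S f) = res S (f - sh σ f) := by
    rw [res_sub, ← res_sh, h]
  rw [e]; exact res_norm_le _ _

/-- the norm of an average -/
theorem avg_norm {ι : Type*} [Fintype ι] {E : Type*} [NormedAddCommGroup E] [InnerProductSpace ℝ E]
    (p : ι → ℝ) (hp : ∑ l, p l = 1) (x : ι → E) :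
    ‖∑ l, p l • x l‖ ^ 2 = ∑ l, p l * ‖x l‖ ^ 2 - 
      1 / 2 * ∑ l, ∑ l', p l * p l' * ‖x l - x l'‖ ^ 2 := by
  have h1 : ∀ l l', ‖x l - x l'‖ ^ 2 = ‖x l‖ ^ 2 - 2 * inner ℝ (x l) (x l') + ‖x l'‖ ^ 2 := 
    fun l l' => norm_sub_sq_real _ _
  have h2 : ‖∑ l, p l • x l‖ ^ 2 = ∑ l, ∑ l', p l * p l' * inner ℝ (x l) (x l') := by
    rw [← real_inner_self_eq_norm_sq, sum_inner]
    refine Finset.sum_congr rfl fun l _ => ?_
    rw [inner_sum]
    refine Finset.sum_congr rfl fun l' _ => ?_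
    rw [real_inner_smul_left, real_inner_smul_right]; ring
  have h3 : ∑ l, ∑ l', p l * p l' * ‖x l - x l'‖ ^ 2 = 
      ∑ l, p l * ‖x l‖ ^ 2 - 2 * (∑ l, ∑ l', p l * p l' * inner ℝ (x l) (x l')) + 
        ∑ l, p l * ‖x l‖ ^ 2 := by
    have e1 : ∑ l, ∑ l', p l * p l' * ‖x l‖ ^ 2 = ∑ l, p l * ‖x l‖ ^ 2 := by
      refine Finset.sum_congr rfl fun l _ => ?_
      have : ∑ l', p l * p l' * ‖x l‖ ^ 2 = (∑ l', p l') * (p l * ‖x l‖ ^ 2) := by
        rw [Finset.sum_mul]; exact Finset.sum_congr rfl fun l' _ => by ring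
      rw [this, hp, one_mul]
    have e2 : ∑ l, ∑ l', p l * p l' * ‖x l'‖ ^ 2 = ∑ l, p l * ‖x l‖ ^ 2 := by
      rw [Finset.sum_comm]
      rw [← e1]
      exact Finset.sum_congr rfl fun l _ => Finset.sum_congr rfl fun l' _ => by ring
    calc _ = ∑ l, ∑ l', p l * p l' * ‖x l‖ ^ 2 - 
          2 * (∑ l, ∑ l', p l * p l' * inner ℝ (x l) (x l')) + 
          ∑ l, ∑ l', p l * p l' * ‖x l'‖ ^ 2 := by
            rw [Finset.mul_sum, ← Finset.sum_sub_distrib, ← Finset.sum_add_distrib]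
            refine Finset.sum_congr rfl fun l _ => ?_
            rw [Finset.mul_sum, ← Finset.sum_sub_distrib, ← Finset.sum_add_distrib]
            refine Finset.sum_congr rfl fun l' _ => ?_
            rw [h1]; ring
      _ = _ := by rw [e1, e2]
  rw [h2, h3]; ring

/-- the average of the translates of `f` -/
noncomputable def avg {ι : Type*} [Fintype ι] (p : ι → ℝ) (σ : ι → Equiv.Perm X) (f : L2 X) : L2 X :=
  ∑ l, p l • sh (σ l) f

theorem avg_apply {ι : Type*} [Fintype ι] (p : ι → ℝ) (σ : ι → Equiv.Perm X) (f : L2 X) (x : X) :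
    avg p σ f x = ∑ l, p l * f ((σ l)⁻¹ x) := by
  unfold avg
  rw [lp.coeFn_sum, Finset.sum_apply]
  rfl

/-- a spectral gap from one pair of letters -/
theorem avg_gap {ι : Type*} [Fintype ι] (p : ι → ℝ) (hp0 : ∀ l, 0 ≤ p l) (hp : ∑ l, p l = 1)
    (σ : ι → Equiv.Perm X) (f : L2 X) (l l' : ι) (ε c : ℝ) (hε : 0 ≤ ε) (hl : ε ≤ p l)
    (hl' : ε ≤ p l') (hc : 0 ≤ c) (hne : l ≠ l') (h : c * ‖f‖ ≤ ‖sh (σ l) f - sh (σ l') f‖) : 
    ‖avg p σ f‖ ^ 2 ≤ (1 - ε ^ 2 * c ^ 2) * ‖f‖ ^ 2 := by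
  classical
  unfold avg
  rw [avg_norm p hp]
  have h1 : ∑ l, p l * ‖sh (σ l) f‖ ^ 2 = ‖f‖ ^ 2 := by
    simp only [sh_norm]
    rw [← Finset.sum_mul, hp, one_mul]
  have h2 : ∀ a b : ι, 0 ≤ p a * p b * ‖sh (σ a) f - sh (σ b) f‖ ^ 2 := fun a b => 
    mul_nonneg (mul_nonneg (hp0 a) (hp0 b)) (sq_nonneg _)
  have h3 : c ^ 2 * ‖f‖ ^ 2 ≤ ‖sh (σ l) f - sh (σ l') f‖ ^ 2 := by
    rw [← mul_pow]
    exact pow_le_pow_left₀ (mul_nonneg hc (norm_nonneg _)) h 2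
  have h4 : ε ^ 2 ≤ p l * p l' := by
    rw [sq]; exact mul_le_mul hl hl' hε (hp0 l)
  have h5 : ε ^ 2 * (c ^ 2 * ‖f‖ ^ 2) ≤ p l * p l' * ‖sh (σ l) f - sh (σ l') f‖ ^ 2 := 
    mul_le_mul h4 h3 (by positivity) (mul_nonneg (hp0 l) (hp0 l'))
  have h6 : ‖sh (σ l') f - sh (σ l) f‖ = ‖sh (σ l) f - sh (σ l') f‖ := norm_sub_rev _ _
  have h7 : 2 * (p l * p l' * ‖sh (σ l) f - sh (σ l') f‖ ^ 2) ≤ 
      ∑ a, ∑ b, p a * p b * ‖sh (σ a) f - sh (σ b) f‖ ^ 2 := by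
    have e1 : ∀ a, 0 ≤ ∑ b, p a * p b * ‖sh (σ a) f - sh (σ b) f‖ ^ 2 := fun a => 
      Finset.sum_nonneg fun b _ => h2 a b
    have e2 : ∑ a ∈ ({l, l'} : Finset ι), ∑ b, p a * p b * ‖sh (σ a) f - sh (σ b) f‖ ^ 2 ≤ 
        ∑ a, ∑ b, p a * p b * ‖sh (σ a) f - sh (σ b) f‖ ^ 2 := 
      Finset.sum_le_sum_of_subset_of_nonneg (Finset.subset_univ _) (fun a _ _ => e1 a)
    rw [Finset.sum_pair hne] at e2
    have e3 : p l * p l' * ‖sh (σ l) f - sh (σ l') f‖ ^ 2 ≤ 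
        ∑ b, p l * p b * ‖sh (σ l) f - sh (σ b) f‖ ^ 2 := 
      Finset.single_le_sum (f := fun b => p l * p b * ‖sh (σ l) f - sh (σ b) f‖ ^ 2) 
        (fun b _ => h2 l b) (Finset.mem_univ l')
    have e4 : p l' * p l * ‖sh (σ l') f - sh (σ l) f‖ ^ 2 ≤ 
        ∑ b, p l' * p b * ‖sh (σ l') f - sh (σ b) f‖ ^ 2 := 
      Finset.single_le_sum (f := fun b => p l' * p b * ‖sh (σ l') f - sh (σ b) f‖ ^ 2) 
        (fun b _ => h2 l' b) (Finset.mem_univ l)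
    rw [h6] at e4
    nlinarith
  rw [h1]
  linarith

end Pool.Agent.W705.JR
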