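import Pool.Agent.W705.JR.Fin
import Pool.Agent.W639.RB.Knots

set_option autoImplicit false

namespace Pool.Agent.W705.JR

open Finset Matrix LaurentPolynomial Pool.Agent.H891R2.Jones Pool.Agent.W639.RB

variable {m : ℕ}

theorem inv_inv' (x : Letter m) : inv' (inv' x) = x := by
  unfold inv'; simp

theorem good_act (i : ℕ) (x : Letter m) (hx : (x.2 : ℕ) = i ∨ (x.2 : ℕ) = i + 1) 
    (W : Submodule ℂ (VV m)) : act (gg x) W ∈ good i ↔ W ∈ good i := by
  have h1 : act (gg x) = (act (gg (inv' x)))⁻¹ := by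
    rw [← act_symm, ← gg_inv', inv_inv']
  have h2 : ((inv' x).2 : ℕ) ∈ ({i, i+1} : Set ℕ) := by
    show (x.2 : ℕ) ∈ ({i, i+1} : Set ℕ)
    simpa using hx
  rw [h1]
  unfold good
  rw [Set.mem_ofPred_eq, Set.mem_ofPred_eq, Stab_act_iff _ _ h2]

theorem good_u (i : ℕ) (h : i + 2 < m) (W : Submodule ℂ (VV m)) : 
    act (uu i h) W ∈ good i ↔ W ∈ good i := by
  have h1 : act (uu i h) W = act (gg (lt (i+1) h true)) (act (gg (lt i (by omega) false)) W) := by
    unfold uu
    rw [← actH_apply, map_mul]; rfl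
  rw [h1, good_act i _ (Or.inr rfl), good_act i _ (Or.inl rfl)]

theorem good_v (i : ℕ) (h : i + 2 < m) (W : Submodule ℂ (VV m)) : 
    act (vv i h) W ∈ good i ↔ W ∈ good i := by
  have h1 : act (vv i h) W = act (gg (lt i (by omega) false)) (act (gg (lt (i+1) h true)) W) := by
    unfold vv
    rw [← actH_apply, map_mul]; rfl
  rw [h1, good_act i _ (Or.inl rfl), good_act i _ (Or.inr rfl)]

theorem sh_u (i : ℕ) (h : i + 2 < m) (f : L2 (Submodule ℂ (VV m))) : 
    ‖sh (act (gg (lt (i+1) h false))) f - sh (act (gg (lt i (by omega) false))) f‖ = 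
      ‖f - sh (act (uu i h)) f‖ := by
  have h1 : act (uu i h) = (act (gg (lt (i+1) h false)))⁻¹ * act (gg (lt i (by omega) false)) := by
    unfold uu
    rw [← actH_apply, map_mul, actH_apply, actH_apply]
    congr 1
    have : lt (m := m) (i+1) h true = inv' (lt (i+1) h false) := rfl
    rw [this, gg_inv', act_symm]
  rw [h1, ← sh_norm (act (gg (lt (i+1) h false))) (f - _), sh_sub, ← sh_mul, mul_inv_cancel_left]

theorem sh_v (i : ℕ) (h : i + 2 < m) (f : L2 (Submodule ℂ (VV m))) : 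
    ‖sh (act (gg (lt i (by omega) true))) f - sh (act (gg (lt (i+1) h true))) f‖ = 
      ‖f - sh (act (vv i h)) f‖ := by
  have h1 : act (vv i h) = (act (gg (lt i (by omega) true)))⁻¹ * act (gg (lt (i+1) h true)) := by
    unfold vv
    rw [← actH_apply, map_mul, actH_apply, actH_apply]
    congr 1
    have : lt (m := m) i (by omega) false = inv' (lt i (by omega) true) := rfl
    rw [this, gg_inv', act_symm]
  rw [h1, ← sh_norm (act (gg (lt i (by omega) true))) (f - _), sh_sub, ← sh_mul, mul_inv_cancel_left]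

theorem norm_le_sum {X ι : Type*} [Fintype ι] (S : ι → Set X) (f : L2 X) 
    (hf : ∀ x, f x ≠ 0 → ∃ i, x ∈ S i) : ‖f‖ ^ 2 ≤ ∑ i, ‖res (S i) f‖ ^ 2 := by
  classical
  have h1 : ∀ i, ‖res (S i) f‖ ^ 2 = ∑' x, (res (S i) f x) ^ 2 := fun i => norm_sq _
  rw [Finset.sum_congr rfl (fun i _ => h1 i), norm_sq, 
    ← Summable.tsum_finsetSum (fun i _ => summable_sq _)]
  refine Summable.tsum_le_tsum (fun x => ?_) (summable_sq f) (summable_sum fun i _ => summable_sq _)
  by_cases h0 : f x = 0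
  · rw [h0]
    have : (0:ℝ) ^ 2 = 0 := by norm_num
    rw [this]
    exact Finset.sum_nonneg fun i _ => sq_nonneg _
  · obtain ⟨i, hi⟩ := hf x h0
    have h2 : (f x) ^ 2 = (res (S i) f x) ^ 2 := by rw [res_apply, if_pos hi]
    rw [h2]
    exact Finset.single_le_sum (f := fun i => (res (S i) f x) ^ 2) (fun j _ => sq_nonneg _) 
      (Finset.mem_univ i)

theorem gap (hm : 3 ≤ m) (p : Letter m → ℝ) (hp : ∀ l, 0 < p l) (hs : ∑ l, p l = 1) : 
    ∃ ρ : ℝ, 0 ≤ ρ ∧ ρ < 1 ∧ ∀ f : L2 (Submodule ℂ (VV m)), 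
      (∀ W, W ∉ {W : Submodule ℂ (VV m) | ¬ Stab Set.univ W} → f W = 0) → 
        ‖avg p (fun l => act (gg l)) f‖ ≤ ρ * ‖f‖ := by
  classical
  have h1 : ∀ i : Fin (m - 2), ∃ c : ℝ, 0 < c ∧ ∀ f : L2 (Submodule ℂ (VV m)), 
    (∀ W, W ∉ good (i : ℕ) → f W = 0) → 
      c * ‖f‖ ≤ ‖f - sh (act (uu (i : ℕ) (by omega))) f‖ ∨ 
      c * ‖f‖ ≤ ‖f - sh (act (vv (i : ℕ) (by omega))) f‖ := fun i => gap_i i (by omega)
  choose c hc0 hc using h1
  have : Nonempty (Fin (m - 2)) := ⟨⟨0, by omega⟩⟩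
  obtain ⟨i₀, hi₀⟩ := Finite.exists_min c
  have : Nonempty (Letter m) := ⟨(true, ⟨0, by omega⟩)⟩
  obtain ⟨l₀, hl₀⟩ := Finite.exists_min p
  set ε := p l₀ with hε
  have hε0 : 0 < ε := hp l₀
  have hm0 : (0:ℝ) < m := by
    have : 0 < m := by omega
    exact_mod_cast this
  set c' : ℝ := c i₀ / m with hc'
  have hc'0 : 0 < c' := div_pos (hc0 _) hm0
  refine ⟨√(max (1 - ε ^ 2 * c' ^ 2) 0), Real.sqrt_nonneg _, ?_, fun f hf => ?_⟩
  · rw [Real.sqrt_lt' one_pos, one_pow]
    refine max_lt ?_ one_pos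
    have : 0 < ε ^ 2 * c' ^ 2 := by positivity
    linarith
  · -- choose a place
    have hcov : ∀ W, f W ≠ 0 → ∃ i : Fin (m - 2), W ∈ good (i : ℕ) := by
      intro W hW
      by_contra hcon
      push Not at hcon
      apply hW
      apply hf
      intro hN
      apply hN
      intro j _ hjm v hv
      by_cases hj : j + 2 < m
      · have h2 := hcon ⟨j, by omega⟩
        unfold good at h2
        rw [Set.mem_ofPred_eq, not_not] at h2
        exact h2 j (by simp) hjm v hv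
      · have h2 := hcon ⟨j - 1, by omega⟩
        unfold good at h2
        rw [Set.mem_ofPred_eq, not_not] at h2
        exact h2 j (by
          have : j = (j - 1) + 1 := by omega
          right; exact this) hjm v hv
    have h2 := norm_le_sum (fun i : Fin (m - 2) => good (m := m) (i : ℕ)) f hcov
    obtain ⟨i, hi⟩ : ∃ i : Fin (m - 2), ‖f‖ ^ 2 ≤ m * ‖res (good (m := m) (i : ℕ)) f‖ ^ 2 := by
      by_contra hcon
      push Not at hcon
      have h3 : (m : ℝ) * ∑ i : Fin (m - 2), ‖res (good (m := m) (i : ℕ)) f‖ ^ 2 < 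
          ∑ i : Fin (m - 2), ‖f‖ ^ 2 := by
        rw [Finset.mul_sum]
        exact Finset.sum_lt_sum_of_nonempty Finset.univ_nonempty (fun i _ => hcon i)
      rw [Finset.sum_const, Finset.card_univ, Fintype.card_fin, nsmul_eq_mul] at h3
      have h4 : ((m - 2 : ℕ) : ℝ) ≤ m := by exact_mod_cast Nat.sub_le m 2
      have h5 := sq_nonneg ‖f‖
      have h6 := mul_le_mul_of_nonneg_left h2 hm0.le
      nlinarith
    set f1 := res (good (m := m) (i : ℕ)) f with hf1
    have h3 : ‖f‖ ≤ m * ‖f1‖ := by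
      have h4 : (1:ℝ) ≤ m := by
        have : 1 ≤ m := by omega
        exact_mod_cast this
      refine abs_le_of_sq_le_sq' ?_ (by positivity) |>.2
      rw [mul_pow]
      have := sq_nonneg ‖f1‖
      nlinarith [mul_le_mul_of_nonneg_right h4 this, mul_nonneg hm0.le this]
    have hf1s : ∀ W, W ∉ good (m := m) (i : ℕ) → f1 W = 0 := by
      intro W hW
      rw [hf1, res_apply, if_neg hW]
    have h4 : ∃ l l' : Letter m, l ≠ l' ∧ c' * ‖f‖ ≤ ‖sh (act (gg l)) f - sh (act (gg l')) f‖ := by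
      have h5 : c' * ‖f‖ ≤ c i * ‖f1‖ := by
        rw [hc']
        have e1 : c i₀ / m * ‖f‖ ≤ c i₀ / m * (m * ‖f1‖) := 
          mul_le_mul_of_nonneg_left h3 hc'0.le
        have e2 : c i₀ / m * (m * ‖f1‖) = c i₀ * ‖f1‖ := by field_simp
        have e3 : c i₀ * ‖f1‖ ≤ c i * ‖f1‖ := mul_le_mul_of_nonneg_right (hi₀ i) (norm_nonneg _)
        linarith
      rcases hc i f1 hf1s with h6 | h6
      · refine ⟨lt ((i : ℕ)+1) (by omega) false, lt (i : ℕ) (by omega) false, ?_, ?_⟩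
        · intro h
          have := congrArg (fun x : Letter m => (x.2 : ℕ)) h
          simp [lt] at this
        · rw [sh_u]
          exact h5.trans (h6.trans (res_inv _ _ (good_u (i : ℕ) (by omega)) f))
      · refine ⟨lt (i : ℕ) (by omega) true, lt ((i : ℕ)+1) (by omega) true, ?_, ?_⟩
        · intro h
          have := congrArg (fun x : Letter m => (x.2 : ℕ)) h
          simp [lt] at this
        · rw [sh_v]
          exact h5.trans (h6.trans (res_inv _ _ (good_v (i : ℕ) (by omega)) f))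
    obtain ⟨l, l', hne, h5⟩ := h4
    have h6 := avg_gap p (fun l => (hp l).le) hs (fun l => act (gg l)) f l l' ε c' hε0.le (hl₀ l) 
      (hl₀ l') hc'0.le hne h5
    refine abs_le_of_sq_le_sq' ?_ (by positivity) |>.2
    rw [mul_pow, Real.sq_sqrt (le_max_right _ _)]
    exact h6.trans (mul_le_mul_of_nonneg_right (le_max_left _ _) (sq_nonneg _))

theorem main (hm : 3 ≤ m) (p : Letter m → ℝ) (hp : ∀ l, 0 < p l) (hs : ∑ l, p l = 1) : 
    ∃ C r : ℝ, 0 ≤ C ∧ 0 ≤ r ∧ r < 1 ∧ ∀ (O : Outer m) (z : ℂ) (k : ℕ), prob p O k z ≤ C * r ^ k := by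
  obtain ⟨ρ, hρ0, hρ1, hρ⟩ := gap hm p hp hs
  obtain ⟨C, r, hC, hr0, hr1, h⟩ := hit_decay (g := gg) (ξ := xi m) (fun l => (hp l).le) hs 
    {W : Submodule ℂ (VV m) | ¬ Stab Set.univ W} 
    (fun W l hW h1 => hW ((Stab_act_iff _ l (Set.mem_univ _) W).2 h1)) 
    (fun h1 => h1 (fun j _ _ v hv => by
      rw [Submodule.mem_bot] at hv
      rw [hv, Submodule.mem_bot]
      exact Prod.ext (map_zero _) rfl)) ρ hρ0 hρ1 hρ (Module.finrank ℂ (VV m))
  refine ⟨C, r, hC, hr0, hr1, fun O z k => ?_⟩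
  rw [← hit_ker (by omega) p z k O]
  exact h (Wc m) (fun W hW l => Wc_act W hW l) (fun W hW W' h' => Wc_le W hW W' h') 
    (fun W hW hN k => hit_stab (by omega) p k W hW (by
      by_contra h1
      exact hN h1)) _ ⟨O, z, le_rfl⟩ (Submodule.finrank_le _) k

end Pool.Agent.W705.JR
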