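import Pool.Agent.H891R2.Jones.Final
import Pool.Agent.W639.RB.Defs
import Pool.Agent.W705.JR.Ind

set_option autoImplicit false

namespace Pool.Agent.W705.JR

open Finset Pool.Agent.H891R2.Jones Pool.Agent.W639.RB

/-- the evaluation point `A = i φ`, `φ` the golden ratio -/
noncomputable def A3 : ℂ := Ar 3

theorem A3_ne : A3 ≠ 0 := Ar_ne 3 le_rfl

theorem A3_d : (3 : ℂ) = -A3 ^ 2 - A3⁻¹ ^ 2 := by
  have := Ar_d 3 le_rfl
  exact_mod_cast this

theorem A3_d' : ((3 : ℕ) : ℂ) = -A3⁻¹ ^ 2 - A3⁻¹⁻¹ ^ 2 := by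
  rw [inv_inv]; push_cast; rw [A3_d]; ring

theorem A3_dN : ((3 : ℕ) : ℂ) = -A3 ^ 2 - A3⁻¹ ^ 2 := Ar_d 3 le_rfl

abbrev V1 (m : ℕ) := (Fin m → Fin 3) → ((Fin m → Fin 3) → ℂ)

abbrev V2 (m : ℕ) := (Fin m → Bool) → ℂ

abbrev VV (m : ℕ) := V1 m × V2 m

variable {m : ℕ}

/-- the Temperley-Lieb generators on `V1` -/
noncomputable abbrev e (m i : ℕ) : Module.End ℂ (V1 m) := ee m 3 ((Fin m → Fin 3) → ℂ) i

theorem e_TL (m : ℕ) : IsTL m ((3 : ℕ) : ℂ) (e m) := isTL_ee m 3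

/-- `A` or `A⁻¹` -/
noncomputable def Bb (b : Bool) : ℂ := if b then A3 else A3⁻¹

theorem Bb_ne (b : Bool) : Bb b ≠ 0 := by
  unfold Bb; split_ifs
  · exact A3_ne
  · exact inv_ne_zero A3_ne

theorem Bb_not (b : Bool) : Bb (!b) = (Bb b)⁻¹ := by
  cases b <;> simp [Bb]

theorem Bb_d (b : Bool) : ((3 : ℕ) : ℂ) = -(Bb b) ^ 2 - (Bb b)⁻¹ ^ 2 := by
  cases b
  · exact A3_d'
  · exact A3_dN

theorem idx_lt (x : Letter m) : (x.2 : ℕ) + 1 < m := by
  have := x.2.2; omega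

/-- the letters on `V1` -/
noncomputable def s1 (x : Letter m) : V1 m ≃ₗ[ℂ] V1 m :=
  LinearEquiv.ofLinearMap (sg (Bb x.1) (e m) x.2) (sg (Bb x.1)⁻¹ (e m) x.2)
    (sg_inv (Bb_ne x.1) (Bb_d x.1) (e_TL m) x.2 (idx_lt x))
    (sg_inv' (Bb_ne x.1) (Bb_d x.1) (e_TL m) x.2 (idx_lt x))

theorem s1_apply (x : Letter m) (v : V1 m) : s1 x v = sg (Bb x.1) (e m) x.2 v := rfl

/-- the constant `-A^3` -/
noncomputable def qq : ℂ := -(A3 ^ 3)

theorem qq_ne : qq ≠ 0 := neg_ne_zero.2 (pow_ne_zero 3 A3_ne)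

def sgn (b : Bool) : ℤ := if b then 1 else -1

theorem sgn_not (b : Bool) : sgn (!b) = - sgn b := by cases b <;> simp [sgn]

/-- the transposition of a letter -/
def sw (x : Letter m) : Equiv.Perm (Fin m) := 
  Equiv.swap ⟨x.2, Nat.lt_of_succ_lt (idx_lt x)⟩ ⟨x.2 + 1, idx_lt x⟩

/-- the product of the directions at the two places of a letter -/
def cst2 (x : Letter m) (U : Fin m → Bool) : ℤ := pat U x.2 * pat U (x.2 + 1)

theorem cst2_sw (x : Letter m) (U : Fin m → Bool) : cst2 x (U ∘ sw x) = cst2 x U := by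
  unfold cst2 sw
  rw [pat_swap U x.2 (idx_lt x)]
  simp only [Function.comp_apply, Equiv.swap_apply_left, Equiv.swap_apply_right]
  ring

theorem sw_sw (x : Letter m) (U : Fin m → Bool) : (U ∘ sw x) ∘ sw x = U := by
  funext j; simp [sw]

/-- the letters on `V2`, as a function -/
noncomputable def m2f (x : Letter m) (z : ℤ) (h : V2 m) : V2 m := 
  fun U => qq ^ (z * cst2 x U) * h (U ∘ sw x)

theorem m2f_inv (x : Letter m) (z : ℤ) (h : V2 m) : m2f x z (m2f x (-z) h) = h := by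
  funext U
  unfold m2f
  rw [cst2_sw, sw_sw, ← mul_assoc, ← zpow_add₀ qq_ne]
  simp

/-- the letters on `V2` -/
noncomputable def m2 (x : Letter m) : V2 m ≃ₗ[ℂ] V2 m where
  toFun := m2f x (sgn x.1)
  invFun := m2f x (- sgn x.1)
  map_add' h h' := by funext U; simp only [m2f, Pi.add_apply]; ring
  map_smul' c h := by funext U; simp only [m2f, Pi.smul_apply, smul_eq_mul, RingHom.id_apply]; ring
  left_inv h := by
    have := m2f_inv x (- sgn x.1) h
    rwa [neg_neg] at this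
  right_inv h := m2f_inv x (sgn x.1) h

theorem m2_apply (x : Letter m) (h : V2 m) (U : Fin m → Bool) : 
    m2 x h U = qq ^ (sgn x.1 * cst2 x U) * h (U ∘ sw x) := rfl

/-- the letters on `V1 × V2` -/
noncomputable def gg (x : Letter m) : VV m ≃ₗ[ℂ] VV m := LinearEquiv.prodCongr (s1 x) (m2 x)

theorem gg_apply (x : Letter m) (v : VV m) : gg x v = (s1 x v.1, m2 x v.2) := rfl

/-- the inverse letter -/
def inv' (x : Letter m) : Letter m := (!x.1, x.2)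

theorem gg_inv' (x : Letter m) : gg (inv' x) = (gg x).symm := by
  apply LinearEquiv.ext
  intro v
  apply (gg x).injective
  rw [LinearEquiv.apply_symm_apply, gg_apply, gg_apply]
  refine Prod.ext ?_ ?_
  · show sg (Bb x.1) (e m) x.2 (sg (Bb (!x.1)) (e m) x.2 v.1) = v.1
    rw [Bb_not, ← Module.End.mul_apply, sg_inv (Bb_ne x.1) (Bb_d x.1) (e_TL m) x.2 (idx_lt x)]
    rfl
  · show m2f x (sgn x.1) (m2f x (sgn (!x.1)) v.2) = v.2
    rw [sgn_not]; exact m2f_inv x _ _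

/-- the initial vector -/
noncomputable def xi (m : ℕ) : VV m := (fun x y => ind (x = y), fun _ => 1)

/-- `E_i = (e_i, 0)` -/
noncomputable def EE2 (i : ℕ) (v : VV m) : VV m := (e m i v.1, 0)

/-- stability under the `E_i`, `i ∈ J` -/
def Stab (J : Set ℕ) (W : Submodule ℂ (VV m)) : Prop := 
  ∀ j ∈ J, j + 1 < m → ∀ v ∈ W, EE2 j v ∈ W

theorem conj_id {K R : Type*} [Field K] [Ring R] [Algebra K R] {M : ℕ} {A d : K} {e : ℕ → R}
    (hA : A ≠ 0) (hd : d = -A^2 - A⁻¹^2) (h : IsTL M d e) (i j : ℕ) (hi : i + 1 < M) :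
    sg A e i * e j = (e j + A ^ 2 • (e j * e i) + (A⁻¹) ^ 2 • (e i * e j) + e i * e j * e i) * sg A e i := by
  have h1 := sg_inv' hA hd h i hi
  calc sg A e i * e j = sg A e i * e j * (sg A⁻¹ e i * sg A e i) := by rw [h1, mul_one]
    _ = (sg A e i * e j * sg A⁻¹ e i) * sg A e i := by noncomm_ring
    _ = _ := by
      congr 1
      simp only [sg, add_mul, mul_add, smul_mul_assoc, mul_smul_comm, one_mul, mul_one, smul_smul,
        smul_add, inv_inv]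
      match_scalars <;> field_simp

theorem gg_EE2 (x : Letter m) (j : ℕ) (v : VV m) : 
    gg x (EE2 j v) = EE2 j (gg x v) + (Bb x.1) ^ 2 • EE2 j (EE2 x.2 (gg x v)) + 
      ((Bb x.1)⁻¹) ^ 2 • EE2 x.2 (EE2 j (gg x v)) + EE2 x.2 (EE2 j (EE2 x.2 (gg x v))) := by
  have h := conj_id (Bb_ne x.1) (Bb_d x.1) (e_TL m) x.2 j (idx_lt x)
  have h2 := LinearMap.congr_fun h v.1
  refine Prod.ext ?_ ?_
  · exact h2
  · show m2 x 0 = 0 + (Bb x.1) ^ 2 • (0 : V2 m) + ((Bb x.1)⁻¹) ^ 2 • (0 : V2 m) + 0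
    simp

theorem Stab_act (J : Set ℕ) (x : Letter m) (hx : (x.2 : ℕ) ∈ J) (W : Submodule ℂ (VV m)) 
    (h : Stab J W) : Stab J ((act (gg x))⁻¹ W) := by
  intro j hj hjm v hv
  rw [mem_act_inv] at hv ⊢
  rw [gg_EE2]
  have hx' := idx_lt x
  have h1 := h j hj hjm _ hv
  have h2 := h _ hx hx' _ hv
  exact W.add_mem (W.add_mem (W.add_mem h1 (W.smul_mem _ (h j hj hjm _ h2))) 
    (W.smul_mem _ (h _ hx hx' _ h1))) (h _ hx hx' _ (h j hj hjm _ h2))

theorem act_symm {V : Type*} [AddCommGroup V] [Module ℂ V] (g : V ≃ₗ[ℂ] V) : 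
    act g.symm = (act g)⁻¹ := by
  apply Equiv.ext
  intro W
  apply Submodule.ext
  intro v
  show v ∈ W.map (g.symm : V →ₗ[ℂ] V) ↔ v ∈ W.comap (g : V →ₗ[ℂ] V)
  rw [Submodule.mem_map, Submodule.mem_comap]
  constructor
  · rintro ⟨w, hw, rfl⟩; simpa using hw
  · intro h; exact ⟨g v, h, by simp⟩

theorem Stab_act_iff (J : Set ℕ) (x : Letter m) (hx : (x.2 : ℕ) ∈ J) (W : Submodule ℂ (VV m)) :
    Stab J ((act (gg x))⁻¹ W) ↔ Stab J W := by
  refine ⟨fun h => ?_, Stab_act J x hx W⟩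
  have h1 := Stab_act J (inv' x) hx _ h
  have h2 : (act (gg (inv' x)))⁻¹ ((act (gg x))⁻¹ W) = W := by
    rw [gg_inv', act_symm, inv_inv]
    exact Equiv.apply_symm_apply _ _
  rwa [h2] at h1

end Pool.Agent.W705.JR
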