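import Pool.Agent.W705.JR.Cor
import Pool.Agent.H832R3.VJ.V8

set_option autoImplicit false

namespace Pool.Agent.W705.JR

open Finset LaurentPolynomial Pool.Agent.H891R2.Jones Pool.Agent.W639.RB Pool.Agent.H832R3.VJ

/-- the exponents of `f` are at most `N` in absolute value -/
def Within (N : ℕ) (f : ℤ[T;T⁻¹]) : Prop := ∀ j : ℤ, f.coeff j ≠ 0 → |j| ≤ N

theorem Within.add {N : ℕ} {f g : ℤ[T;T⁻¹]} (hf : Within N f) (hg : Within N g) : Within N (f + g) := by
  intro j hj
  rw [AddMonoidAlgebra.coeff_add, Finsupp.add_apply] at hj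
  by_cases h : f.coeff j = 0
  · rw [h, zero_add] at hj
    exact hg j hj
  · exact hf j h

theorem Within.sum {ι : Type*} {N : ℕ} (s : Finset ι) (f : ι → ℤ[T;T⁻¹]) (h : ∀ i ∈ s, Within N (f i)) : 
    Within N (∑ i ∈ s, f i) := by
  classical
  induction s using Finset.induction_on with
  | empty => intro j hj; simp at hj
  | insert a s ha ih =>
    rw [Finset.sum_insert ha]
    exact (h a (Finset.mem_insert_self _ _)).add (ih fun i hi => h i (Finset.mem_insert_of_mem hi))

theorem coeff_mul_T (f : ℤ[T;T⁻¹]) (m j : ℤ) : (f * T m).coeff j = f.coeff (j - m) := by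
  exact Pool.Agent.H891R2.MT.T8.coeff_mul_T f m j

theorem Within.mul_T {N : ℕ} {f : ℤ[T;T⁻¹]} (hf : Within N f) (m : ℤ) (M : ℕ) (hm : |m| ≤ M) : 
    Within (N + M) (f * T m) := by
  intro j hj
  rw [coeff_mul_T] at hj
  have h1 := hf _ hj
  rw [abs_le] at *
  push_cast
  constructor <;> linarith [h1.1, h1.2, hm.1, hm.2]

theorem Within.neg {N : ℕ} {f : ℤ[T;T⁻¹]} (hf : Within N f) : Within N (-f) := by
  intro j hj
  rw [AddMonoidAlgebra.coeff_neg, Finsupp.neg_apply, neg_ne_zero] at hj
  exact hf j hj

theorem Within.tm (m : ℤ) (M : ℕ) (hm : |m| ≤ M) : Within M (T m : ℤ[T;T⁻¹]) := by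
  intro j hj
  have h : (T m : ℤ[T;T⁻¹]).coeff j = if m = j then 1 else 0 := by
    show (AddMonoidAlgebra.single m (1:ℤ)).coeff j = _
    rw [AddMonoidAlgebra.coeff_single, Finsupp.single_apply]
  rw [h] at hj
  have : m = j := by
    by_contra hc
    rw [if_neg hc] at hj
    exact hj rfl
  rw [← this]
  exact hm

theorem Within.one : Within 0 (1 : ℤ[T;T⁻¹]) := by
  rw [← T_zero]
  exact Within.tm 0 0 (by simp)

theorem within_delta_pow (k : ℕ) : Within (2 * k) ((-T 2 - T (-2) : ℤ[T;T⁻¹]) ^ k) := by
  induction k with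
  | zero => rw [pow_zero]; exact Within.one
  | succ k ih =>
    have h : ((-T 2 - T (-2) : ℤ[T;T⁻¹]) ^ (k+1)) = 
        -((-T 2 - T (-2) : ℤ[T;T⁻¹]) ^ k * T 2) + -((-T 2 - T (-2) : ℤ[T;T⁻¹]) ^ k * T (-2)) := by
      ring
    rw [h]
    exact (ih.mul_T 2 2 (by norm_num)).neg.add (ih.mul_T (-2) 2 (by norm_num)).neg


theorem Within.mono {N M : ℕ} {f : ℤ[T;T⁻¹]} (hf : Within N f) (h : N ≤ M) : Within M f := by
  intro j hj
  have := hf j hj
  have h' : (N : ℤ) ≤ M := by exact_mod_cast h
  linarith

theorem loops_le {P : Type} [Finite P] (D : Diagram P) (s : Fin D.crossings.length → Bool) : 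
    D.loops s ≤ Nat.card P := by
  unfold Diagram.loops
  exact Nat.card_le_card_of_surjective (Quot.mk _) Quot.mk_surjective

theorem weight_abs {n : ℕ} (s : Fin n → Bool) : |Diagram.weight s| ≤ n := by
  unfold Diagram.weight
  refine (Finset.abs_sum_le_sum_abs _ _).trans ?_
  refine (Finset.sum_le_card_nsmul _ _ 1 fun i _ => ?_).trans ?_
  · split_ifs <;> simp
  · simp

theorem within_bracket {P : Type} [Finite P] (D : Diagram P) : 
    Within (D.crossings.length + 2 * Nat.card P) D.bracket := by
  unfold Diagram.bracket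
  apply Within.sum
  intro s _
  have h1 := (within_delta_pow (D.loops s - 1)).mono (M := 2 * Nat.card P) (by
    have := loops_le D s
    omega)
  have h2 := h1.mul_T (Diagram.weight s) D.crossings.length (weight_abs s)
  have h3 : (T (Diagram.weight s) * (-T 2 - T (-2)) ^ (D.loops s - 1) : ℤ[T;T⁻¹]) = 
    (-T 2 - T (-2)) ^ (D.loops s - 1) * T (Diagram.weight s) := mul_comm _ _
  rw [h3]
  exact h2.mono (by omega)

theorem card_le_of_within {N : ℕ} {f : ℤ[T;T⁻¹]} (hf : Within N f) : f.coeff.support.card ≤ 2 * N + 1 := by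
  have h : f.coeff.support ⊆ Finset.Icc (-(N:ℤ)) N := by
    intro j hj
    rw [Finsupp.mem_support_iff] at hj
    have := hf j hj
    rw [abs_le] at this
    exact Finset.mem_Icc.2 this
  refine (Finset.card_le_card h).trans ?_
  rw [Int.card_Icc]
  omega

theorem fPoly_card {P : Type} [Finite P] (D : Diagram P) : 
    D.fPoly.coeff.support.card ≤ 2 * (D.crossings.length + 2 * Nat.card P) + 1 := by
  refine le_trans ?_ (card_le_of_within (within_bracket D))
  have h : D.fPoly.coeff.support ⊆ D.bracket.coeff.support.image (fun j => j + (-3 * D.writhe)) := by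
    intro j hj
    rw [Finsupp.mem_support_iff] at hj
    rw [Finset.mem_image]
    refine ⟨j - (-3 * D.writhe), ?_, by ring⟩
    rw [Finsupp.mem_support_iff]
    intro h0
    apply hj
    unfold Diagram.fPoly
    by_cases he : Even D.writhe
    · rw [if_pos he, one_mul, mul_comm, coeff_mul_T, h0]
    · have : (-1 * T (-3 * D.writhe) * D.bracket : ℤ[T;T⁻¹]) = -(D.bracket * T (-3 * D.writhe)) := by ring
      rw [if_neg he, this, AddMonoidAlgebra.coeff_neg, Finsupp.neg_apply, coeff_mul_T, h0, neg_zero]
  exact (Finset.card_le_card h).trans Finset.card_image_le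

theorem card_sub (f g : ℤ[T;T⁻¹]) :
    (f - g).coeff.support.card ≤ f.coeff.support.card + g.coeff.support.card := by
  classical
  have h : (f - g).coeff.support ⊆ f.coeff.support ∪ g.coeff.support := by
    intro j hj
    rw [Finsupp.mem_support_iff] at hj
    rw [Finset.mem_union, Finsupp.mem_support_iff, Finsupp.mem_support_iff]
    by_contra hcon
    push Not at hcon
    apply hj
    rw [AddMonoidAlgebra.coeff_sub, Finsupp.sub_apply, hcon.1, hcon.2, sub_zero]
  exact (Finset.card_le_card h).trans (Finset.card_union_le _ _)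

/-- the number of crossings plus twice the number of marked points -/
noncomputable def size (X : Dia) : ℕ := X.D.crossings.length + 2 * Nat.card X.P

theorem sep_mono {d d' : ℕ} (h : d ≤ d') {X Y : Dia} (hs : Separated d X Y) : Separated d' X Y := by
  obtain ⟨n, hn, v, hv⟩ := hs
  exact ⟨n, hn.trans h, v, hv⟩

/-- Diagrams with different normalised brackets are separated by Vassiliev invariants of linear order. -/
theorem sep_of_ne (X Y : Dia) (h : X.D.fPoly ≠ Y.D.fPoly) : 
    Separated (2 * (size X + size Y) + 1) X Y := by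
  have h1 := @fPoly_card X.P X.fin X.D
  have h2 := @fPoly_card Y.P Y.fin Y.D
  have h3 := separated_of_ne (2 * (size X + size Y) + 2) X Y 1 one_ne_zero (by
    rw [one_mul]
    refine (card_sub _ _).trans ?_
    unfold size
    omega) h
  exact sep_mono (by omega) h3

/-- the diagram with the word `w` in the box, with its finite set of marked points -/
def dia {m n : ℕ} (O : Outer m) (w : Fin n → Letter m) : Dia := 
  ⟨(draw O (toL w)).P, inferInstance, diagram O w⟩

theorem draw_size {m : ℕ} (w : List (Bool × ℕ)) : ∀ (O : Outer m), (∀ x ∈ w, x.2 + 1 < m) → 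
    (draw O w).crossings.length = O.crossings.length + w.length ∧ 
    Nat.card (draw O w).P = Nat.card O.P + m * w.length := by
  induction w with
  | nil => intro O _; exact ⟨rfl, by simp [draw]⟩
  | cons x w ih =>
    intro O hw
    obtain ⟨h1, h2⟩ := ih (O.push x.1 x.2) (fun y hy => hw y (List.mem_cons_of_mem _ hy))
    have h0 := hw x List.mem_cons_self
    have h3 : draw O (x :: w) = draw (O.push x.1 x.2) w := rfl
    have h4 : (O.push x.1 x.2).crossings.length = O.crossings.length + 1 ∧ 
        Nat.card (O.push x.1 x.2).P = Nat.card O.P + m := by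
      unfold Outer.push
      rw [dif_pos h0]
      refine ⟨by simp, ?_⟩
      simp [Nat.card_eq_fintype_card]
    rw [h3, h1, h2, h4.1, h4.2, List.length_cons]
    constructor <;> ring

theorem size_dia {m n : ℕ} (O : Outer m) (w : Fin n → Letter m) : 
    size (dia O w) = O.crossings.length + 2 * Nat.card O.P + (2 * m + 1) * n := by
  obtain ⟨h1, h2⟩ := draw_size (toL w) O (toL_mem w)
  have h3 : (toL w).length = n := by simp [toL]
  rw [h3] at h1 h2
  have h4 : size (dia O w) = (draw O (toL w)).crossings.length + 2 * Nat.card (draw O (toL w)).P := rfl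
  rw [h4, h1, h2]
  ring

end Pool.Agent.W705.JR
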